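import Mathlib

set_option autoImplicit false

namespace Pool.Agent.Lib.MP_157e4e_co

/-- The ordering that the permutation `ρ` of `[n]` induces on `X`: the set of pairs `(x, y)` of
elements of `X` with `x` before `y`, where `x` comes before `y` when `ρ x < ρ y`. -/
def restr {n : ℕ} (ρ : Equiv.Perm (Fin n)) (X : Finset (Fin n)) : Finset (Fin n × Fin n) :=
  (X ×ˢ X).filter fun p => ρ p.1 < ρ p.2

/-- The family `P` `t`-shatters `X`: its members induce at least `t` distinct orderings of `X`. -/
def Shatters {n : ℕ} (P : Finset (Equiv.Perm (Fin n))) (t : ℕ) (X : Finset (Fin n)) : Prop :=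
  t ≤ (P.image fun ρ => restr ρ X).card

end Pool.Agent.Lib.MP_157e4e_co
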