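import Mathlib
import Pool.Agent.Lib.MP_157e4e_co.Defs

set_option autoImplicit false

namespace Pool.Agent.Lib.MP_157e4e_co

open Finset

/-- The permutation that sorts `[n]` by the key `g`. -/
noncomputable def permOf {n : ℕ} {K : Type} [LinearOrder K] (g : Fin n → K) :
    Equiv.Perm (Fin n) := (Tuple.sort g).symm

theorem permOf_lt {n : ℕ} {K : Type} [LinearOrder K] {g : Fin n → K} (hg : Function.Injective g)
    (x y : Fin n) : permOf g x < permOf g y ↔ g x < g y := by
  have h1 : StrictMono (g ∘ Tuple.sort g) :=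
    (Tuple.monotone_sort g).strictMono_of_injective (hg.comp (Tuple.sort g).injective)
  have := h1.lt_iff_lt (a := permOf g x) (b := permOf g y)
  simpa [permOf] using this.symm

theorem mem_restr {n : ℕ} {ρ : Equiv.Perm (Fin n)} {X : Finset (Fin n)} {x y : Fin n}
    (hx : x ∈ X) (hy : y ∈ X) : (x, y) ∈ restr ρ X ↔ ρ x < ρ y := by
  simp [restr, hx, hy]

/-- Independent control of the order of the pairs in `W` gives `2 ^ |W|` orderings. -/
theorem two_pow_le {n : ℕ} {α : Type} (P : Finset (Equiv.Perm (Fin n))) (X : Finset (Fin n))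
    (W : Finset α) (u v : α → Fin n) (hu : ∀ w ∈ W, u w ∈ X) (hv : ∀ w ∈ W, v w ∈ X)
    (h : ∀ σ : α → Bool, ∃ ρ ∈ P, ∀ w ∈ W, (ρ (u w) < ρ (v w) ↔ σ w = true)) :
    2 ^ W.card ≤ (P.image fun ρ => restr ρ X).card := by
  classical
  choose ρ hρ hσ using h
  rw [← Finset.card_powerset]
  refine Finset.card_le_card_of_injOn (fun S => restr (ρ fun w => decide (w ∈ S)) X) ?_ ?_
  · intro S _
    exact Finset.mem_coe.2 (Finset.mem_image.2 ⟨_, hρ _, rfl⟩)
  · intro S hS S' hS' hSS
    have hS : S ⊆ W := Finset.mem_powerset.1 (Finset.mem_coe.1 hS)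
    have hS' : S' ⊆ W := Finset.mem_powerset.1 (Finset.mem_coe.1 hS')
    have key : ∀ w ∈ W, (w ∈ S ↔ w ∈ S') := by
      intro w hw
      have h1 := hσ (fun w => decide (w ∈ S)) w hw
      have h2 := hσ (fun w => decide (w ∈ S')) w hw
      rw [← mem_restr (hu w hw) (hv w hw)] at h1 h2
      simp only at hSS
      rw [hSS, h2] at h1
      simpa using h1.symm
    ext w
    exact ⟨fun hw => (key w (hS hw)).1 hw, fun hw => (key w (hS' hw)).2 hw⟩

theorem lex_lt_iff {ι V : Type} [LinearOrder ι] [WellFoundedLT ι] [LinearOrder V] {f g : ι → V}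
    {i : ι} (h : ∀ j < i, f j = g j) (hne : f i ≠ g i) : toLex f < toLex g ↔ f i < g i := by
  constructor
  · intro hlt
    by_contra hcon
    have h1 : g i < f i := lt_of_le_of_ne (not_lt.1 hcon) hne.symm
    have h2 : toLex g < toLex f := ⟨i, fun j hj => (h j hj).symm, h1⟩
    exact lt_asymm hlt h2
  · intro hlt
    exact ⟨i, h, hlt⟩

/-- Strings: `d` levels, each carrying a letter of `a` bits. -/
abbrev Str (d a : ℕ) : Type := Fin d → Fin a → Bool

variable {d a : ℕ}

/-- The strings agree before bit `p` of level `i`. -/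
def Pre (x y : Str d a) (i : Fin d) (p : Fin a) : Prop :=
  (∀ j < i, x j = y j) ∧ ∀ r < p, x i r = y i r

/-- The strings first differ at bit `p` of level `i`. -/
def Sp (x y : Str d a) (i : Fin d) (p : Fin a) : Prop := Pre x y i p ∧ x i p ≠ y i p

theorem exists_first {ι V : Type} [LinearOrder ι] [WellFoundedLT ι] {f g : ι → V} (h : f ≠ g) :
    ∃ i, (∀ j < i, f j = g j) ∧ f i ≠ g i := by
  have hne : {i | f i ≠ g i}.Nonempty := by
    by_contra hcon
    apply h
    funext i
    by_contra hi
    exact hcon ⟨i, hi⟩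
  refine ⟨wellFounded_lt.min _ hne, fun j hj => ?_, wellFounded_lt.min_mem _ hne⟩
  by_contra hj'
  exact wellFounded_lt.not_lt_min {i | f i ≠ g i} hj' hj

theorem exists_sp {x y : Str d a} (h : x ≠ y) : ∃ i p, Sp x y i p := by
  obtain ⟨i, h1, h2⟩ := exists_first h
  obtain ⟨p, h3, h4⟩ := exists_first h2
  exact ⟨i, p, ⟨h1, h3⟩, h4⟩

theorem Sp.unique {x y : Str d a} {i i' : Fin d} {p p' : Fin a} (h : Sp x y i p)
    (h' : Sp x y i' p') : i = i' ∧ p = p' := by
  have hi : i = i' := by
    rcases lt_trichotomy i i' with hlt | heq | hlt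
    · exact absurd (congrFun (h'.1.1 i hlt) p) h.2
    · exact heq
    · exact absurd (congrFun (h.1.1 i' hlt) p') h'.2
  subst hi
  refine ⟨rfl, ?_⟩
  rcases lt_trichotomy p p' with hlt | heq | hlt
  · exact absurd (h'.1.2 p hlt) h.2
  · exact heq
  · exact absurd (h.1.2 p' hlt) h'.2

theorem Sp.ne_level {x y : Str d a} {i : Fin d} {p : Fin a} (h : Sp x y i p) : x i ≠ y i :=
  fun he => h.2 (congrFun he p)

theorem bool_lt_iff {b c s : Bool} (h : b ≠ c) : xor b s < xor c s ↔ xor b s = false := by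
  revert b c s
  decide

/-- Binary lexicographic key with a sign for every bit position. -/
def keyB (s : Fin d → Fin a → Bool) (x : Str d a) : Lex (Fin d → Lex (Fin a → Bool)) :=
  toLex fun i => toLex fun p => xor (x i p) (s i p)

theorem keyB_inj (s : Fin d → Fin a → Bool) : Function.Injective (keyB s) := by
  intro x y h
  funext i p
  have h1 := congrFun (congrArg ofLex (congrFun (congrArg ofLex h) i)) p
  simpa [keyB] using h1

theorem keyB_lt (s : Fin d → Fin a → Bool) {x y : Str d a} {i : Fin d} {p : Fin a}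
    (h : Sp x y i p) : keyB s x < keyB s y ↔ xor (x i p) (s i p) = false := by
  have hne : xor (x i p) (s i p) ≠ xor (y i p) (s i p) := by
    have := h.2
    revert this
    cases x i p <;> cases y i p <;> cases s i p <;> simp
  unfold keyB
  refine (lex_lt_iff (i := i) ?_ ?_).trans
    ((lex_lt_iff (f := fun p => xor (x i p) (s i p)) (g := fun p => xor (y i p) (s i p)) (i := p)
      ?_ hne).trans (bool_lt_iff h.2))
  · intro j hj
    rw [h.1.1 j hj]
  · intro he
    exact hne (congrFun (congrArg ofLex he) p)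
  · intro r hr
    rw [h.1.2 r hr]

/-- Lexicographic key in which the letters of level `i` are compared by `h i` first. -/
def keyA (h : Fin d → (Fin a → Bool) → ℕ) (x : Str d a) :
    Lex (Fin d → ℕ ×ₗ Lex (Fin a → Bool)) :=
  toLex fun i => toLex (h i (x i), toLex (x i))

theorem keyA_inj (h : Fin d → (Fin a → Bool) → ℕ) : Function.Injective (keyA h) := by
  intro x y hxy
  funext i
  have h1 := congrArg (fun z => ofLex (ofLex z).2) (congrFun (congrArg ofLex hxy) i)
  simpa [keyA] using h1

theorem keyA_lt_iff (h : Fin d → (Fin a → Bool) → ℕ) {x y : Str d a} {i : Fin d}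
    (h1 : ∀ j < i, x j = y j) (h2 : x i ≠ y i) :
    keyA h x < keyA h y ↔
      (toLex (h i (x i), toLex (x i)) : ℕ ×ₗ Lex (Fin a → Bool)) < toLex (h i (y i), toLex (y i)) := by
  unfold keyA
  rw [lex_lt_iff (i := i)]
  · intro j hj
    rw [h1 j hj]
  · intro he
    exact h2 (congrArg (fun z => ofLex (ofLex z).2) he)

theorem keyA_lt (h : Fin d → (Fin a → Bool) → ℕ) {x y : Str d a} {i : Fin d}
    (h1 : ∀ j < i, x j = y j) (h2 : h i (x i) < h i (y i)) : keyA h x < keyA h y := by
  have h3 : x i ≠ y i := fun he => by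
    rw [he] at h2
    exact lt_irrefl _ h2
  rw [keyA_lt_iff h h1 h3, Prod.Lex.toLex_lt_toLex]
  exact Or.inl h2

end Pool.Agent.Lib.MP_157e4e_co
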