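import Mathlib
import Pool.Agent.Lib.MP_157e4e_co.Lex

set_option autoImplicit false

namespace Pool.Agent.Lib.MP_157e4e_co

open Finset

variable {n d a : ℕ}

/-- A pair of points with the position of their first difference. -/
abbrev Quad (n d a : ℕ) : Type := (Fin n × Fin n) × (Fin d × Fin a)

def Good (e : Fin n → Str d a) (X : Finset (Fin n)) (W : Finset (Quad n d a)) : Prop :=
  ∀ w ∈ W, w.1.1 ∈ X ∧ w.1.2 ∈ X ∧ Sp (e w.1.1) (e w.1.2) w.2.1 w.2.2

theorem Good.card_le {e : Fin n → Str d a} {X : Finset (Fin n)} {W : Finset (Quad n d a)}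
    (h : Good e X W) : W.card ≤ X.card * X.card := by
  rw [← Finset.card_product]
  refine Finset.card_le_card_of_injOn (fun w => w.1) ?_ ?_
  · intro w hw
    exact Finset.mem_coe.2 (Finset.mem_product.2 ⟨(h w hw).1, (h w hw).2.1⟩)
  · intro w hw w' hw' he
    have h1 := (h w hw).2.2
    have h2 := (h w' hw').2.2
    simp only at he
    rw [he] at h1
    obtain ⟨h3, h4⟩ := h1.unique h2
    exact Prod.ext he (Prod.ext h3 h4)

theorem exists_eff {e : Fin n → Str d a} (he : Function.Injective e) (X : Finset (Fin n)) :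
    ∃ W : Finset (Quad n d a), Good e X W ∧ Set.InjOn (fun w : Quad n d a => w.2) W ∧
      X.card ≤ 2 ^ W.card := by
  classical
  let E : Finset (Fin d × Fin a) :=
    univ.filter fun q => ∃ z : Fin n × Fin n, z.1 ∈ X ∧ z.2 ∈ X ∧ Sp (e z.1) (e z.2) q.1 q.2
  have hE : ∀ q : E, ∃ z : Fin n × Fin n, z.1 ∈ X ∧ z.2 ∈ X ∧ Sp (e z.1) (e z.2) q.1.1 q.1.2 :=
    fun q => (Finset.mem_filter.1 q.2).2
  choose z hz using hE
  have hinj : Function.Injective (fun q : E => ((z q, q.1) : Quad n d a)) := by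
    intro q q' h
    exact Subtype.ext (congrArg Prod.snd h)
  refine ⟨univ.image fun q : E => (z q, q.1), ?_, ?_, ?_⟩
  · intro w hw
    obtain ⟨q, -, rfl⟩ := Finset.mem_image.1 hw
    exact hz q
  · intro w hw w' hw' h
    obtain ⟨q, -, rfl⟩ := Finset.mem_image.1 (Finset.mem_coe.1 hw)
    obtain ⟨q', -, rfl⟩ := Finset.mem_image.1 (Finset.mem_coe.1 hw')
    have : q = q' := Subtype.ext h
    rw [this]
  · rw [Finset.card_image_of_injective _ hinj, Finset.card_univ]
    have : X.card ≤ (univ : Finset (E → Bool)).card := by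
      refine Finset.card_le_card_of_injOn (fun x (q : E) => e x q.1.1 q.1.2)
        (fun _ _ => Finset.mem_coe.2 (mem_univ _)) ?_
      intro x hx y hy hxy
      by_contra hne
      obtain ⟨i, p, hsp⟩ := exists_sp (fun h => hne (he h))
      have hmem : (i, p) ∈ E := Finset.mem_filter.2 ⟨mem_univ _, (x, y), hx, hy, hsp⟩
      exact hsp.2 (congrFun hxy ⟨(i, p), hmem⟩)
    simpa using this

theorem exists_nodes {e : Fin n → Str d a} (he : Function.Injective e) (X : Finset (Fin n)) :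
    ∃ W : Finset (Quad n d a), Good e X W ∧ X.card ≤ W.card + 1 ∧
      (∀ w ∈ W, e w.1.1 w.2.1 w.2.2 = false) ∧
      ∀ w ∈ W, ∀ w' ∈ W, w ≠ w' → w.2 = w'.2 → ¬ Pre (e w.1.1) (e w'.1.1) w.2.1 w.2.2 := by
  classical
  let o : Fin n → Lex (Fin d → Lex (Fin a → Bool)) := fun x => keyB (fun _ _ => false) (e x)
  have holt : ∀ x y i p, Sp (e x) (e y) i p → (o x < o y ↔ e x i p = false) := by
    intro x y i p h
    have := keyB_lt (fun _ _ => false) h
    simpa using this
  induction X using Finset.induction_on_max_value o with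
  | empty => exact ⟨∅, by simp [Good], by simp, by simp, by simp⟩
  | insert x s hx hmax ih =>
    rcases s.eq_empty_or_nonempty with rfl | hs
    · exact ⟨∅, by simp [Good], by simp, by simp, by simp⟩
    obtain ⟨W, hW, hcard, hfalse, hdist⟩ := ih
    obtain ⟨z, hz, hzmax⟩ := Finset.exists_max_image s o hs
    have hzx : z ≠ x := fun h => hx (h ▸ hz)
    obtain ⟨i, p, hsp⟩ := exists_sp (fun h => hzx (he h))
    have hlt : o z < o x :=
      lt_of_le_of_ne (hmax z hz) fun h => hzx (he (keyB_inj _ h))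
    have hzf : e z i p = false := (holt z x i p hsp).1 hlt
    have hnew : ∀ w ∈ W, w.2 = (i, p) → ¬ Pre (e w.1.1) (e z) i p := by
      intro w hw h2 hpre
      obtain ⟨-, hv, hsp'⟩ := hW w hw
      have hf := hfalse w hw
      rw [h2] at hsp' hf
      simp only at hsp' hf
      have hvz : Sp (e z) (e w.1.2) i p := by
        refine ⟨⟨fun j hj => ?_, fun r hr => ?_⟩, ?_⟩
        · rw [← hpre.1 j hj, hsp'.1.1 j hj]
        · rw [← hpre.2 r hr, hsp'.1.2 r hr]
        · rw [hzf, ← hf]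
          exact hsp'.2
      exact absurd ((holt z w.1.2 i p hvz).2 hzf) (not_lt.2 (hzmax _ hv))
    have hnotin : (((z, x), (i, p)) : Quad n d a) ∉ W := fun h => hx (hW _ h).2.1
    refine ⟨insert ((z, x), (i, p)) W, ?_, ?_, ?_, ?_⟩
    · intro w hw
      rcases Finset.mem_insert.1 hw with rfl | hw
      · exact ⟨Finset.mem_insert_of_mem hz, Finset.mem_insert_self _ _, hsp⟩
      · exact ⟨Finset.mem_insert_of_mem (hW w hw).1, Finset.mem_insert_of_mem (hW w hw).2.1,
          (hW w hw).2.2⟩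
    · rw [Finset.card_insert_of_notMem hx, Finset.card_insert_of_notMem hnotin]
      omega
    · intro w hw
      rcases Finset.mem_insert.1 hw with rfl | hw
      · exact hzf
      · exact hfalse w hw
    · intro w hw w' hw' hne h2
      rcases Finset.mem_insert.1 hw with rfl | hw <;> rcases Finset.mem_insert.1 hw' with rfl | hw'
      · exact absurd rfl hne
      · intro hpre
        exact hnew w' hw' h2.symm ⟨fun j hj => (hpre.1 j hj).symm, fun r hr => (hpre.2 r hr).symm⟩
      · intro hpre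
        rw [h2] at hpre
        exact hnew w hw h2 hpre
      · exact hdist w hw w' hw' hne h2

theorem permB_lt {e : Fin n → Str d a} (he : Function.Injective e) (s : Fin d → Fin a → Bool)
    (x y : Fin n) : permOf (fun x => keyB s (e x)) x < permOf (fun x => keyB s (e x)) y ↔
      keyB s (e x) < keyB s (e y) :=
  permOf_lt (g := fun x => keyB s (e x)) ((keyB_inj _).comp he) x y

theorem permA_lt {e : Fin n → Str d a} (he : Function.Injective e)
    (h : Fin d → (Fin a → Bool) → ℕ)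
    (x y : Fin n) : permOf (fun x => keyA h (e x)) x < permOf (fun x => keyA h (e x)) y ↔
      keyA h (e x) < keyA h (e y) :=
  permOf_lt (g := fun x => keyA h (e x)) ((keyA_inj _).comp he) x y

/-- The family of signed binary lexicographic orders. -/
noncomputable def famB {K : ℕ} (H : Finset (Fin d × Fin a → Fin K)) (e : Fin n → Str d a) :
    Finset (Equiv.Perm (Fin n)) :=
  H.image fun h => permOf fun x => keyB (fun i p => decide ((h (i, p)).val = 1)) (e x)

theorem count_B {K s : ℕ} (hK : 2 ≤ K) {H : Finset (Fin d × Fin a → Fin K)}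
    (hH : ∀ T : Finset (Fin d × Fin a), T.card ≤ s → ∀ g : Fin d × Fin a → Fin K,
      ∃ h ∈ H, ∀ i ∈ T, h i = g i)
    {e : Fin n → Str d a} (he : Function.Injective e) {X : Finset (Fin n)}
    (hs : X.card * X.card ≤ s) {W : Finset (Quad n d a)} (hW : Good e X W)
    (hinj : Set.InjOn (fun w : Quad n d a => w.2) W) :
    2 ^ W.card ≤ ((famB H e).image fun ρ => restr ρ X).card := by
  classical
  refine two_pow_le _ X W (fun w => w.1.1) (fun w => w.1.2) (fun w hw => (hW w hw).1)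
    (fun w hw => (hW w hw).2.1) fun σ => ?_
  let g : Fin d × Fin a → Fin K := fun q =>
    if ∃ w ∈ W, w.2 = q ∧ xor (e w.1.1 q.1 q.2) (!σ w) = true then ⟨1, by omega⟩ else ⟨0, by omega⟩
  obtain ⟨h, hh, hg⟩ := hH (W.image fun w => w.2)
    (Finset.card_image_le.trans (hW.card_le.trans hs)) g
  refine ⟨_, Finset.mem_image.2 ⟨h, hh, rfl⟩, fun w hw => ?_⟩
  rw [permB_lt he, keyB_lt _ (hW w hw).2.2]
  have h1 : h (w.2.1, w.2.2) = g w.2 := hg _ (Finset.mem_image.2 ⟨w, hw, rfl⟩)
  rw [h1]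
  by_cases hc : xor (e w.1.1 w.2.1 w.2.2) (!σ w) = true
  · have h2 : g w.2 = ⟨1, by omega⟩ := if_pos ⟨w, hw, rfl, hc⟩
    rw [h2]
    revert hc
    cases e w.1.1 w.2.1 w.2.2 <;> cases σ w <;> simp
  · have h2 : g w.2 = ⟨0, by omega⟩ := by
      refine if_neg ?_
      rintro ⟨w', hw', h3, h4⟩
      have : w' = w := hinj hw' hw h3
      rw [this] at h4
      exact hc h4
    rw [h2]
    revert hc
    cases e w.1.1 w.2.1 w.2.2 <;> cases σ w <;> simp

/-- The family of lexicographic orders with hashed orders of the letters. -/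
noncomputable def famA {K : ℕ} (H : Finset (Fin d × (Fin a → Bool) → Fin K))
    (e : Fin n → Str d a) : Finset (Equiv.Perm (Fin n)) :=
  H.image fun h => permOf fun x => keyA (fun i c => (h (i, c)).val) (e x)

theorem count_A {K s : ℕ} (hK0 : 0 < K) {H : Finset (Fin d × (Fin a → Bool) → Fin K)}
    (hH : ∀ T : Finset (Fin d × (Fin a → Bool)), T.card ≤ s →
      ∀ g : Fin d × (Fin a → Bool) → Fin K, ∃ h ∈ H, ∀ i ∈ T, h i = g i)
    {e : Fin n → Str d a} (he : Function.Injective e) {X : Finset (Fin n)} (hK : X.card ≤ K)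
    (hs : 2 * (X.card * X.card) ≤ s) {W : Finset (Quad n d a)} (hW : Good e X W)
    (hinj : ∀ w ∈ W, ∀ w' ∈ W, w.2 = w'.2 →
      (∀ r < w.2.2, e w.1.1 w.2.1 r = e w'.1.1 w.2.1 r) → w = w') :
    2 ^ W.card ≤ ((famA H e).image fun ρ => restr ρ X).card := by
  classical
  refine two_pow_le _ X W (fun w => w.1.1) (fun w => w.1.2) (fun w hw => (hW w hw).1)
    (fun w hw => (hW w hw).2.1) fun σ => ?_
  let sg : Fin d → Fin a → (Fin a → Bool) → Bool := fun i p c =>
    decide (∃ w ∈ W, w.2 = (i, p) ∧ (∀ r < p, c r = e w.1.1 i r) ∧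
      xor (e w.1.1 i p) (!σ w) = true)
  have hsg : ∀ i p c c', (∀ r < p, c r = c' r) → sg i p c = sg i p c' := by
    intro i p c c' h
    simp only [sg, decide_eq_decide]
    constructor
    · rintro ⟨w, hw, h1, h2, h3⟩
      exact ⟨w, hw, h1, fun r hr => (h r hr).symm.trans (h2 r hr), h3⟩
    · rintro ⟨w, hw, h1, h2, h3⟩
      exact ⟨w, hw, h1, fun r hr => (h r hr).trans (h2 r hr), h3⟩
  have hsgw : ∀ w ∈ W, sg w.2.1 w.2.2 (e w.1.1 w.2.1) = xor (e w.1.1 w.2.1 w.2.2) (!σ w) := by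
    intro w hw
    by_cases hc : xor (e w.1.1 w.2.1 w.2.2) (!σ w) = true
    · rw [hc]
      exact decide_eq_true ⟨w, hw, rfl, fun _ _ => rfl, hc⟩
    · rw [Bool.eq_false_iff.2 hc]
      refine decide_eq_false ?_
      rintro ⟨w', hw', h1, h2, h3⟩
      have : w = w' := hinj w hw w' hw' h1.symm h2
      rw [← this] at h3
      exact hc h3
  let κ : Fin d → (Fin a → Bool) → Lex (Fin a → Bool) := fun i c =>
    toLex fun p => xor (c p) (sg i p c)
  have hκ : ∀ i p (c c' : Fin a → Bool), (∀ r < p, c r = c' r) → c p ≠ c' p →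
      (κ i c < κ i c' ↔ xor (c p) (sg i p c) = false) := by
    intro i p c c' h1 h2
    have h3 : sg i p c' = sg i p c := (hsg i p c c' h1).symm
    refine (lex_lt_iff (f := fun p => xor (c p) (sg i p c)) (g := fun p => xor (c' p) (sg i p c'))
      (i := p) ?_ ?_).trans ?_
    · intro r hr
      rw [h1 r hr, hsg i r c c' fun r' hr' => h1 r' (hr'.trans hr)]
    · rw [h3]
      revert h2
      cases c p <;> cases c' p <;> cases sg i p c <;> simp
    · rw [h3]
      exact bool_lt_iff h2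
  let rk : Fin d → (Fin a → Bool) → ℕ := fun i c => (X.filter fun x => κ i (e x i) < κ i c).card
  have hrk : ∀ i, ∀ x ∈ X, rk i (e x i) < K := by
    intro i x hx
    refine lt_of_lt_of_le (Finset.card_lt_card ?_) hK
    exact Finset.filter_ssubset.2 ⟨x, hx, lt_irrefl _⟩
  have hrklt : ∀ i, ∀ x ∈ X, ∀ c, κ i (e x i) < κ i c → rk i (e x i) < rk i c := by
    intro i x hx c hlt
    refine Finset.card_lt_card ⟨?_, ?_⟩
    · intro y hy
      obtain ⟨h1, h2⟩ := Finset.mem_filter.1 hy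
      exact Finset.mem_filter.2 ⟨h1, h2.trans hlt⟩
    · intro hsub
      have := hsub (Finset.mem_filter.2 ⟨hx, hlt⟩)
      exact lt_irrefl _ (Finset.mem_filter.1 this).2
  let g : Fin d × (Fin a → Bool) → Fin K := fun q =>
    if h : rk q.1 q.2 < K then ⟨rk q.1 q.2, h⟩ else ⟨0, hK0⟩
  have hg' : ∀ i, ∀ x ∈ X, (g (i, e x i)).val = rk i (e x i) := by
    intro i x hx
    simp only [g, hrk i x hx, dif_pos]
  obtain ⟨h, hh, hg⟩ := hH ((W.image fun w => (w.2.1, e w.1.1 w.2.1)) ∪
      (W.image fun w => (w.2.1, e w.1.2 w.2.1))) (by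
    refine (Finset.card_union_le _ _).trans ?_
    have h1 := Finset.card_image_le (s := W) (f := fun w => (w.2.1, e w.1.1 w.2.1))
    have h2 := Finset.card_image_le (s := W) (f := fun w => (w.2.1, e w.1.2 w.2.1))
    have h3 := hW.card_le
    omega) g
  refine ⟨_, Finset.mem_image.2 ⟨h, hh, rfl⟩, fun w hw => ?_⟩
  obtain ⟨hu, hv, hsp⟩ := hW w hw
  have e1 : (h (w.2.1, e w.1.1 w.2.1)).val = rk w.2.1 (e w.1.1 w.2.1) := by
    rw [hg _ (Finset.mem_union_left _ (Finset.mem_image.2 ⟨w, hw, rfl⟩)), hg' _ _ hu]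
  have e2 : (h (w.2.1, e w.1.2 w.2.1)).val = rk w.2.1 (e w.1.2 w.2.1) := by
    rw [hg _ (Finset.mem_union_right _ (Finset.mem_image.2 ⟨w, hw, rfl⟩)), hg' _ _ hv]
  rw [permA_lt he]
  have hk := hκ w.2.1 w.2.2 _ _ hsp.1.2 hsp.2
  rw [hsgw w hw] at hk
  have hb : xor (e w.1.1 w.2.1 w.2.2) (xor (e w.1.1 w.2.1 w.2.2) (!σ w)) = false ↔ σ w = true := by
    cases e w.1.1 w.2.1 w.2.2 <;> cases σ w <;> simp
  rw [hb] at hk
  constructor
  · intro hlt
    by_contra hσ
    have h1 : ¬ κ w.2.1 (e w.1.1 w.2.1) < κ w.2.1 (e w.1.2 w.2.1) := fun h => hσ (hk.1 h)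
    have h2 : κ w.2.1 (e w.1.2 w.2.1) ≠ κ w.2.1 (e w.1.1 w.2.1) := by
      intro h
      have h3 := congrFun (congrArg ofLex h) w.2.2
      simp only [κ, ofLex_toLex] at h3
      rw [hsg w.2.1 w.2.2 _ _ fun r hr => (hsp.1.2 r hr).symm] at h3
      have h4 := hsp.2
      revert h3 h4
      cases e w.1.1 w.2.1 w.2.2 <;> cases e w.1.2 w.2.1 w.2.2 <;>
        cases sg w.2.1 w.2.2 (e w.1.1 w.2.1) <;> simp
    have h3 := hrklt _ _ hv _ (lt_of_le_of_ne (not_lt.1 h1) h2)
    rw [← e1, ← e2] at h3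
    exact lt_asymm hlt
      (keyA_lt (fun i c => (h (i, c)).val) (fun j hj => (hsp.1.1 j hj).symm) h3)
  · intro hσ
    have h3 := hrklt _ _ hu _ (hk.2 hσ)
    rw [← e1, ← e2] at h3
    exact keyA_lt (fun i c => (h (i, c)).val) hsp.1.1 h3

end Pool.Agent.Lib.MP_157e4e_co
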