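import Mathlib

set_option autoImplicit false

namespace Pool.Agent.Lib.MP_157e4e_co

open Finset

/-- One greedy step: some point satisfies a `1/R` share of the constraints. -/
theorem greedy_step {Ω C : Type} [Fintype Ω] [Nonempty Ω] (sat : Ω → C → Prop)
    [∀ w c, Decidable (sat w c)] (R : ℕ) (𝒞 : Finset C)
    (h : ∀ c ∈ 𝒞, Fintype.card Ω ≤ R * (univ.filter fun w => sat w c).card) :
    ∃ w, 𝒞.card ≤ R * (𝒞.filter fun c => sat w c).card := by
  by_contra hcon
  push Not at hcon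
  have h1 : ∑ w : Ω, R * (𝒞.filter fun c => sat w c).card < ∑ _w : Ω, 𝒞.card :=
    Finset.sum_lt_sum_of_nonempty univ_nonempty fun w _ => hcon w
  have h2 : ∑ w : Ω, (𝒞.filter fun c => sat w c).card
      = ∑ c ∈ 𝒞, (univ.filter fun w => sat w c).card := by
    simp only [Finset.card_filter]
    exact Finset.sum_comm
  rw [← Finset.mul_sum, h2, Finset.mul_sum] at h1
  have h3 : ∑ _c ∈ 𝒞, Fintype.card Ω ≤ ∑ c ∈ 𝒞, R * (univ.filter fun w => sat w c).card :=
    Finset.sum_le_sum h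
  simp only [Finset.sum_const, smul_eq_mul, Finset.card_univ] at h1 h3
  rw [Nat.mul_comm] at h3
  omega

theorem greedy_iter {Ω C : Type} [Fintype Ω] [Nonempty Ω] [DecidableEq Ω] (sat : Ω → C → Prop)
    [∀ w c, Decidable (sat w c)] (R : ℕ) (hR : 0 < R) (𝒞 : Finset C)
    (h : ∀ c ∈ 𝒞, Fintype.card Ω ≤ R * (univ.filter fun w => sat w c).card) (L : ℕ) :
    ∃ H : Finset Ω, H.card ≤ L ∧
      (((𝒞.filter fun c => ∀ w ∈ H, ¬ sat w c).card : ℝ) ≤ (1 - 1 / R) ^ L * 𝒞.card) := by
  induction L with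
  | zero => exact ⟨∅, le_rfl, by simp⟩
  | succ L ih =>
    obtain ⟨H, hH, hle⟩ := ih
    set D := 𝒞.filter fun c => ∀ w ∈ H, ¬ sat w c with hD
    obtain ⟨w, hw⟩ := greedy_step sat R D fun c hc => h c (Finset.mem_filter.1 hc).1
    refine ⟨insert w H, (Finset.card_insert_le _ _).trans (by omega), ?_⟩
    have e1 : (𝒞.filter fun c => ∀ w' ∈ insert w H, ¬ sat w' c) = D.filter fun c => ¬ sat w c := by
      ext c
      simp only [hD, Finset.mem_filter, Finset.mem_insert, forall_eq_or_imp]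
      tauto
    have e2 := Finset.card_filter_add_card_filter_not (s := D) (fun c => sat w c)
    have hR' : (0 : ℝ) < R := by exact_mod_cast hR
    have hw' : (D.card : ℝ) ≤ R * (D.filter fun c => sat w c).card := by exact_mod_cast hw
    have e2' : ((D.filter fun c => sat w c).card : ℝ) + (D.filter fun c => ¬ sat w c).card
        = D.card := by exact_mod_cast e2
    have h1 : (0 : ℝ) ≤ 1 - 1 / R := by
      rw [sub_nonneg, div_le_one hR']
      exact_mod_cast hR
    rw [e1]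
    have h2 : ((D.filter fun c => ¬ sat w c).card : ℝ) ≤ (1 - 1 / R) * D.card := by
      have : (D.card : ℝ) / R ≤ (D.filter fun c => sat w c).card := by
        rw [div_le_iff₀ hR']
        linarith
      have e3 : (1 - 1 / (R : ℝ)) * D.card = D.card - D.card / R := by ring
      linarith
    calc _ ≤ (1 - 1 / (R : ℝ)) * D.card := h2
      _ ≤ (1 - 1 / (R : ℝ)) * ((1 - 1 / R) ^ L * 𝒞.card) := mul_le_mul_of_nonneg_left hle h1
      _ = _ := by ring

theorem greedy_cover {Ω C : Type} [Fintype Ω] [Nonempty Ω] [DecidableEq Ω] (sat : Ω → C → Prop)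
    [∀ w c, Decidable (sat w c)] (R : ℕ) (hR : 0 < R) (𝒞 : Finset C)
    (h : ∀ c ∈ 𝒞, Fintype.card Ω ≤ R * (univ.filter fun w => sat w c).card) (e : ℕ)
    (he : 𝒞.card < 2 ^ e) :
    ∃ H : Finset Ω, H.card ≤ R * e ∧ ∀ c ∈ 𝒞, ∃ w ∈ H, sat w c := by
  obtain ⟨H, hH, hle⟩ := greedy_iter sat R hR 𝒞 h (R * e)
  refine ⟨H, hH, ?_⟩
  have hR' : (0 : ℝ) < R := by exact_mod_cast hR
  have h1 : (0 : ℝ) ≤ 1 - 1 / R := by
    rw [sub_nonneg, div_le_one hR']
    exact_mod_cast hR
  have h2 : (1 - 1 / (R : ℝ)) ^ R ≤ 1 / 2 := by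
    have a1 : (1 - 1 / (R : ℝ)) ≤ Real.exp (-(1 / R)) := by
      have := Real.add_one_le_exp (-(1 / (R : ℝ)))
      linarith
    have a2 : (1 - 1 / (R : ℝ)) ^ R ≤ Real.exp (-(1 / R)) ^ R := pow_le_pow_left₀ h1 a1 R
    rw [← Real.exp_nat_mul] at a2
    have a3 : (R : ℝ) * -(1 / R) = -1 := by field_simp
    rw [a3] at a2
    have a4 : Real.exp (-1) ≤ 1 / 2 := by
      rw [Real.exp_neg, one_div]
      apply inv_anti₀ (by norm_num)
      have := Real.add_one_le_exp (1 : ℝ)
      linarith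
    exact a2.trans a4
  have h3 : (1 - 1 / (R : ℝ)) ^ (R * e) * 𝒞.card < 1 := by
    rw [pow_mul]
    have b1 : ((1 - 1 / (R : ℝ)) ^ R) ^ e ≤ (1 / 2) ^ e := pow_le_pow_left₀ (by positivity) h2 e
    have b2 : (𝒞.card : ℝ) < 2 ^ e := by exact_mod_cast he
    have b3 : (0 : ℝ) < (1 / 2) ^ e := by positivity
    calc _ ≤ (1 / 2 : ℝ) ^ e * 𝒞.card := mul_le_mul_of_nonneg_right b1 (by positivity)
      _ < (1 / 2 : ℝ) ^ e * 2 ^ e := mul_lt_mul_of_pos_left b2 b3
      _ = 1 := by rw [← mul_pow]; norm_num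
  have h4 : (𝒞.filter fun c => ∀ w ∈ H, ¬ sat w c).card = 0 := by
    have : ((𝒞.filter fun c => ∀ w ∈ H, ¬ sat w c).card : ℝ) < 1 := hle.trans_lt h3
    have : (𝒞.filter fun c => ∀ w ∈ H, ¬ sat w c).card < 1 := by exact_mod_cast this
    omega
  intro c hc
  by_contra hcon
  push Not at hcon
  have : c ∈ 𝒞.filter fun c => ∀ w ∈ H, ¬ sat w c := Finset.mem_filter.2 ⟨hc, hcon⟩
  rw [Finset.card_eq_zero] at h4
  rw [h4] at this
  exact absurd this (Finset.notMem_empty _)

/-- Universal families: every assignment on at most `s` points is matched by a member. -/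
theorem exists_universal (I : Type) [Fintype I] [DecidableEq I] [Nonempty I] (K s e : ℕ)
    (hK : 0 < K) (he : Fintype.card I * K ≤ 2 ^ e) :
    ∃ H : Finset (I → Fin K), H.card ≤ K ^ s * (e * s + 1) ∧
      ∀ T : Finset I, T.card ≤ s → ∀ g : I → Fin K, ∃ h ∈ H, ∀ i ∈ T, h i = g i := by
  classical
  have : Nonempty (Fin K) := ⟨⟨0, hK⟩⟩
  let 𝒞 : Finset ((Fin s → I) × (Fin s → Fin K)) :=
    univ.filter fun c => ∃ g : I → Fin K, ∀ t, g (c.1 t) = c.2 t
  have hc : 𝒞.card < 2 ^ (e * s + 1) := by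
    have h1 : 𝒞.card ≤ (Fintype.card I * K) ^ s := by
      refine (Finset.card_filter_le _ _).trans ?_
      simp [mul_pow]
    have h2 : (Fintype.card I * K) ^ s ≤ (2 ^ e) ^ s := Nat.pow_le_pow_left he s
    rw [← pow_mul] at h2
    have h3 : 2 ^ (e * s) < 2 ^ (e * s + 1) := Nat.pow_lt_pow_right (by norm_num) (by omega)
    omega
  have hgood : ∀ c ∈ 𝒞, Fintype.card (I → Fin K) ≤ K ^ s *
      (univ.filter fun h : I → Fin K => ∀ t, h (c.1 t) = c.2 t).card := by
    rintro ⟨c, v⟩ hc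
    obtain ⟨-, g, hg⟩ := Finset.mem_filter.1 hc
    let F : (I → Fin K) → (Fin s → Fin K) × (I → Fin K) := fun h =>
      (fun t => h (c t), fun i => if i ∈ Set.range c then g i else h i)
    have hinj : Function.Injective F := by
      intro h h' hF
      have h1 := congrArg Prod.fst hF
      have h2 := congrArg Prod.snd hF
      funext i
      by_cases hi : i ∈ Set.range c
      · obtain ⟨t, rfl⟩ := hi
        exact congrFun h1 t
      · have := congrFun h2 i
        simpa [F, hi] using this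
    have hmap : ∀ h ∈ (univ : Finset (I → Fin K)), F h ∈
        (univ : Finset (Fin s → Fin K)) ×ˢ (univ.filter fun w : I → Fin K => ∀ t, w (c t) = v t) := by
      intro h _
      refine Finset.mem_product.2 ⟨mem_univ _, Finset.mem_filter.2 ⟨mem_univ _, fun t => ?_⟩⟩
      have : c t ∈ Set.range c := ⟨t, rfl⟩
      simp only [F, this, if_true]
      exact hg t
    have := Finset.card_le_card_of_injOn F hmap hinj.injOn
    rw [Finset.card_product] at this
    simpa using this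
  obtain ⟨H, hH, hcov⟩ := greedy_cover (Ω := I → Fin K)
    (fun h (c : (Fin s → I) × (Fin s → Fin K)) => ∀ t, h (c.1 t) = c.2 t) (K ^ s)
    (by positivity) 𝒞 hgood (e * s + 1) hc
  · refine ⟨H, hH, fun T hT g => ?_⟩
    let c : Fin s → I := fun t => T.toList.getD t (Classical.arbitrary I)
    obtain ⟨h, hh, hs⟩ := hcov (c, fun t => g (c t)) (Finset.mem_filter.2 ⟨mem_univ _, g, fun _ => rfl⟩)
    refine ⟨h, hh, fun i hi => ?_⟩
    obtain ⟨m, hm, rfl⟩ := List.getElem_of_mem (Finset.mem_toList.2 hi)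
    have hm' : m < s := by
      rw [Finset.length_toList] at hm
      omega
    have := hs ⟨m, hm'⟩
    simp only [c, List.getD_eq_getElem _ _ hm] at this
    exact this

end Pool.Agent.Lib.MP_157e4e_co
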