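import Mathlib
import Pool.Agent.Lib.MP_157e4e_co.Core
import Pool.Agent.Lib.MP_157e4e_co.Cover

set_option autoImplicit false

namespace Pool.Agent.Lib.MP_157e4e_co

open Finset

variable {n d a : ℕ}

theorem le_two_pow_sub (k : ℕ) (hk : 4 ≤ k) : k ≤ 2 ^ (k - 2) := by
  induction k, hk using Nat.le_induction with
  | base => norm_num
  | succ k hk ih =>
    have : k + 1 - 2 = (k - 2) + 1 := by omega
    rw [this, pow_succ]
    omega

/-- The whole family. -/
noncomputable def fam [NeZero d] {K : ℕ} (HA : Finset (Fin d × (Fin a → Bool) → Fin K))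
    (HB : Finset (Fin d × Fin a → Fin K)) (e : Fin n → Str d a) : Finset (Equiv.Perm (Fin n)) :=
  famA HA e ∪ univ.biUnion fun j : Fin d => famB HB fun x => e x ∘ Equiv.swap 0 j

theorem fam_card [NeZero d] {K : ℕ} (HA : Finset (Fin d × (Fin a → Bool) → Fin K))
    (HB : Finset (Fin d × Fin a → Fin K)) (e : Fin n → Str d a) :
    (fam HA HB e).card ≤ HA.card + d * HB.card := by
  refine (Finset.card_union_le _ _).trans (add_le_add Finset.card_image_le ?_)
  refine Finset.card_biUnion_le.trans ?_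
  refine (Finset.sum_le_card_nsmul _ _ HB.card fun j _ => Finset.card_image_le).trans ?_
  simp

theorem fam_shatters [NeZero d] {k : ℕ} (hk : 4 ≤ k)
    {HA : Finset (Fin d × (Fin a → Bool) → Fin k)}
    (hHA : ∀ T : Finset (Fin d × (Fin a → Bool)), T.card ≤ 2 * (k * k) →
      ∀ g : Fin d × (Fin a → Bool) → Fin k, ∃ h ∈ HA, ∀ i ∈ T, h i = g i)
    {HB : Finset (Fin d × Fin a → Fin k)}
    (hHB : ∀ T : Finset (Fin d × Fin a), T.card ≤ 2 * (k * k) → ∀ g : Fin d × Fin a → Fin k,
      ∃ h ∈ HB, ∀ i ∈ T, h i = g i)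
    {e : Fin n → Str d a} (he : Function.Injective e) (X : Finset (Fin n)) (hX : X.card = k) :
    Shatters (fam HA HB e) (2 ^ (Nat.clog 2 k + 1)) X := by
  classical
  unfold Shatters
  obtain ⟨W, hW, hcard, hfalse, hdist⟩ := exists_nodes he X
  have hsubA : ((famA HA e).image fun ρ => restr ρ X) ⊆ (fam HA HB e).image fun ρ => restr ρ X :=
    Finset.image_subset_image Finset.subset_union_left
  by_cases hc : ∀ w ∈ W, ∀ w' ∈ W, w.2 = w'.2 →
      (∀ r < w.2.2, e w.1.1 w.2.1 r = e w'.1.1 w.2.1 r) → w = w'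
  · have h1 := count_A (by omega) hHA he hX.le (by rw [hX]) hW hc
    have h2 : Nat.clog 2 k ≤ k - 2 := Nat.clog_le_of_le_pow (le_two_pow_sub k hk)
    have h3 : 2 ^ (Nat.clog 2 k + 1) ≤ 2 ^ W.card := Nat.pow_le_pow_right (by norm_num) (by omega)
    exact h3.trans (h1.trans (Finset.card_le_card hsubA))
  · push Not at hc
    obtain ⟨⟨⟨u, v⟩, i, p⟩, hw, ⟨⟨u', v'⟩, i', p'⟩, hw', h2, hpre, hne⟩ := hc
    obtain ⟨rfl, rfl⟩ := Prod.mk.inj h2
    simp only at hpre
    have hnp := hdist _ hw _ hw' hne rfl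
    obtain ⟨hu, hv, hsp⟩ := hW _ hw
    obtain ⟨hu', hv', hsp'⟩ := hW _ hw'
    have hf := hfalse _ hw
    have hf' := hfalse _ hw'
    simp only at hnp hu hv hsp hu' hv' hsp' hf hf'
    have ht : e v i p = true := by
      have := hsp.2
      rw [hf] at this
      simpa using this.symm
    have ht' : e v' i p = true := by
      have := hsp'.2
      rw [hf'] at this
      simpa using this.symm
    have hlev : ¬ ∀ j < i, e u j = e u' j := fun h => hnp ⟨h, hpre⟩
    obtain ⟨j, hj1, hj2⟩ := exists_first (f := e u) (g := e u') fun h => hlev fun j _ => by rw [h]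
    have hji : j < i := by
      by_contra hcon
      exact hlev fun j' hj' => hj1 j' (hj'.trans_le (not_lt.1 hcon))
    let e' : Fin n → Str d a := fun x => e x ∘ Equiv.swap 0 i
    have he' : Function.Injective e' := by
      intro x y h
      apply he
      funext m
      have := congrFun h (Equiv.swap 0 i m)
      simpa [e'] using this
    have hsubB : ((famB HB e').image fun ρ => restr ρ X) ⊆
        (fam HA HB e).image fun ρ => restr ρ X := by
      refine Finset.image_subset_image (Finset.Subset.trans ?_ Finset.subset_union_right)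
      exact Finset.subset_biUnion_of_mem
        (fun j : Fin d => famB HB fun x => e x ∘ Equiv.swap 0 j) (mem_univ i)
    have hA : ∀ R ∈ (famA HA e).image fun ρ => restr ρ X, ((u, v') ∈ R ↔ (v, u') ∈ R) := by
      intro R hR
      obtain ⟨ρ, hρ, rfl⟩ := Finset.mem_image.1 hR
      obtain ⟨h, -, rfl⟩ := Finset.mem_image.1 hρ
      rw [mem_restr hu hv', mem_restr hv hu', permA_lt he, permA_lt he,
        keyA_lt_iff _ (i := j), keyA_lt_iff _ (i := j), ← hsp.1.1 j hji, ← hsp'.1.1 j hji]
      · intro m hm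
        rw [← hsp.1.1 m (hm.trans hji), hj1 m hm]
      · rw [← hsp.1.1 j hji]
        exact hj2
      · intro m hm
        rw [← hsp'.1.1 m (hm.trans hji), hj1 m hm]
      · rw [← hsp'.1.1 j hji]
        exact hj2
    have hB : ∀ R ∈ (famB HB e').image fun ρ => restr ρ X, ¬ ((u, v') ∈ R ↔ (v, u') ∈ R) := by
      intro R hR
      obtain ⟨ρ, hρ, rfl⟩ := Finset.mem_image.1 hR
      obtain ⟨h, -, rfl⟩ := Finset.mem_image.1 hρ
      have e0 : ∀ x, e' x 0 = e x i := fun x => by simp [e']
      have s1 : Sp (e' u) (e' v') 0 p := by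
        refine ⟨⟨fun m hm => absurd hm (Fin.not_lt_zero m), fun r hr => ?_⟩, ?_⟩
        · rw [e0, e0, hpre r hr, hsp'.1.2 r hr]
        · rw [e0, e0, hf, ht']
          simp
      have s2 : Sp (e' v) (e' u') 0 p := by
        refine ⟨⟨fun m hm => absurd hm (Fin.not_lt_zero m), fun r hr => ?_⟩, ?_⟩
        · rw [e0, e0, ← hsp.1.2 r hr, hpre r hr]
        · rw [e0, e0, hf', ht]
          simp
      rw [mem_restr hu hv', mem_restr hv hu', permB_lt he', permB_lt he', keyB_lt _ s1,
        keyB_lt _ s2, e0, e0, hf, ht]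
      cases decide ((h (0, p)).val = 1) <;> simp
    have hdisj : Disjoint ((famA HA e).image fun ρ => restr ρ X)
        ((famB HB e').image fun ρ => restr ρ X) :=
      Finset.disjoint_left.2 fun R h1 h2 => hB R h2 (hA R h1)
    obtain ⟨W1, hW1, hinj1, hc1⟩ := exists_eff he X
    obtain ⟨W2, hW2, hinj2, hc2⟩ := exists_eff he' X
    have a1 := count_A (by omega) hHA he hX.le (by rw [hX]) hW1
      fun w hw w' hw' h _ => hinj1 hw hw' h
    have a2 := count_B (by omega) hHB he' (by rw [hX]; omega) hW2 hinj2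
    rw [hX] at hc1 hc2
    have b1 : 2 ^ Nat.clog 2 k ≤ 2 ^ W1.card :=
      Nat.pow_le_pow_right (by norm_num) (Nat.clog_le_of_le_pow hc1)
    have b2 : 2 ^ Nat.clog 2 k ≤ 2 ^ W2.card :=
      Nat.pow_le_pow_right (by norm_num) (Nat.clog_le_of_le_pow hc2)
    have c1 := Finset.card_le_card (Finset.union_subset hsubA hsubB)
    rw [Finset.card_union_of_disjoint hdisj] at c1
    rw [pow_succ]
    omega

/-- The construction with explicit parameters. -/
theorem exists_fam (k : ℕ) (hk : 4 ≤ k) (n d a eA eB : ℕ) (hd : 0 < d) (ha : 0 < a)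
    (hn : n ≤ 2 ^ (a * d)) (hA : d * 2 ^ a * k ≤ 2 ^ eA) (hB : d * a * k ≤ 2 ^ eB) :
    ∃ P : Finset (Equiv.Perm (Fin n)),
      P.card ≤ k ^ (2 * (k * k)) * (eA * (2 * (k * k)) + 1) +
        d * (k ^ (2 * (k * k)) * (eB * (2 * (k * k)) + 1)) ∧
      ∀ X : Finset (Fin n), X.card = k → Shatters P (2 ^ (Nat.clog 2 k + 1)) X := by
  classical
  have : NeZero d := ⟨hd.ne'⟩
  have : NeZero a := ⟨ha.ne'⟩
  obtain ⟨HA, hA1, hA2⟩ := exists_universal (Fin d × (Fin a → Bool)) k (2 * (k * k)) eA
    (by omega) (by simpa using hA)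
  obtain ⟨HB, hB1, hB2⟩ := exists_universal (Fin d × Fin a) k (2 * (k * k)) eB
    (by omega) (by simpa using hB)
  have hcard : Fintype.card (Fin n) ≤ Fintype.card (Str d a) := by
    simp only [Fintype.card_fin, Fintype.card_pi, Fintype.card_bool, Finset.prod_const,
      Finset.card_univ]
    rwa [← pow_mul]
  obtain ⟨e⟩ := Function.Embedding.nonempty_of_card_le hcard
  refine ⟨fam HA HB e, (fam_card _ _ _).trans (add_le_add hA1 (Nat.mul_le_mul_left _ hB1)), ?_⟩
  exact fun X hX => fam_shatters hk hA2 hB2 e.injective X hX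

end Pool.Agent.Lib.MP_157e4e_co
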