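import Mathlib
import Pool.Agent.Lib.MP_157e4e_co.Comb

set_option autoImplicit false

namespace Pool.Agent.Lib.MP_157e4e_co

theorem clog_le_log (m : ℕ) (hm : 2 ≤ m) : (Nat.clog 2 m : ℝ) ≤ 1 + 3 / 2 * Real.log m := by
  have h1 : 2 ^ (Nat.clog 2 m - 1) < m := Nat.pow_pred_clog_lt_self (by norm_num) (by omega)
  have h2 : 0 < Nat.clog 2 m := Nat.clog_pos (by norm_num) (by omega)
  have h3 : ((2 : ℝ) ^ (Nat.clog 2 m - 1)) ≤ m := by exact_mod_cast h1.le
  have h4 := Real.log_le_log (by positivity) h3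
  rw [Real.log_pow, Nat.cast_sub h2] at h4
  have h5 := Real.log_two_gt_d9
  have h6 : (1 : ℝ) ≤ Nat.clog 2 m := by exact_mod_cast h2
  push_cast at h4
  nlinarith

theorem params (n : ℕ) (hn : 16 ≤ n) : ∃ d l : ℕ, 0 < d ∧ 0 < l ∧ n ≤ 2 ^ (d * l * d) ∧
    d ≤ 2 ^ (l + 1) ∧
    ((d * l : ℕ) : ℝ) ≤ 7 * √(Real.log n * Real.log (Real.log n)) := by
  set L := Nat.clog 2 n with hL
  set l := Nat.clog 2 L with hl
  have hnL : n ≤ 2 ^ L := Nat.le_pow_clog (by norm_num) n
  have hL4 : 4 ≤ L := by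
    by_contra hcon
    have : 2 ^ L ≤ 2 ^ 3 := Nat.pow_le_pow_right (by norm_num) (by omega)
    omega
  have hLl : L ≤ 2 ^ l := Nat.le_pow_clog (by norm_num) L
  have hl0 : 0 < l := Nat.clog_pos (by norm_num) (by omega)
  have hlL : l ≤ L := Nat.clog_le_of_le_pow (Nat.lt_two_pow_self).le
  set r := Nat.sqrt (L / l) with hr
  have hr1 : r * r ≤ L / l := Nat.sqrt_le _
  have hr2 : L / l < (r + 1) * (r + 1) := Nat.lt_succ_sqrt _
  have hr3 : r * r * l ≤ L := (Nat.mul_le_mul_right l hr1).trans (Nat.div_mul_le_self L l)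
  have hr4 : L < (r + 1) * (r + 1) * l := (Nat.div_lt_iff_lt_mul hl0).1 hr2
  refine ⟨r + 1, l, by omega, hl0, hnL.trans (Nat.pow_le_pow_right (by norm_num) (by nlinarith)),
    ?_, ?_⟩
  · have h1 : r ≤ L := (Nat.sqrt_le_self _).trans (Nat.div_le_self _ _)
    rw [pow_succ]
    omega
  · have hn' : (16 : ℝ) ≤ n := by exact_mod_cast hn
    have h5 := Real.log_two_gt_d9
    have hlog : 4 * Real.log 2 ≤ Real.log n := by
      have := Real.log_le_log (by norm_num) hn'
      rw [show (16 : ℝ) = 2 ^ 4 by norm_num, Real.log_pow] at this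
      exact_mod_cast this
    have hlog1 : (2.77 : ℝ) ≤ Real.log n := by linarith
    have hll : 1 ≤ Real.log (Real.log n) := by
      rw [Real.le_log_iff_exp_le (by linarith)]
      have := Real.exp_one_lt_d9
      linarith
    have hL1 : (L : ℝ) ≤ 2 * Real.log n := by
      have := clog_le_log n (by omega)
      rw [← hL] at this
      linarith
    have hl1 : (l : ℝ) ≤ 4 * Real.log (Real.log n) := by
      have h1 := clog_le_log L (by omega)
      rw [← hl] at h1
      have hLpos : (0 : ℝ) < L := by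
        have : 0 < L := by omega
        exact_mod_cast this
      have h2 := Real.log_le_log hLpos hL1
      rw [Real.log_mul (by norm_num) (by linarith)] at h2
      have h3 := Real.log_two_lt_d9
      linarith
    have hsq : ((r + 1) * l) ^ 2 ≤ 4 * (L * l) := by nlinarith [sq_nonneg ((r : ℤ) - 1)]
    have hsq' : ((((r + 1) * l : ℕ) : ℝ)) ^ 2 ≤ 4 * ((L : ℝ) * l) := by exact_mod_cast hsq
    have hprod : (L : ℝ) * l ≤ 8 * (Real.log n * Real.log (Real.log n)) := by
      have := mul_le_mul hL1 hl1 (by positivity) (by linarith)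
      linarith
    have hpos : 0 ≤ Real.log n * Real.log (Real.log n) := by positivity
    have hs := Real.sq_sqrt hpos
    refine (pow_le_pow_iff_left₀ (by positivity) (by positivity) two_ne_zero).1 ?_
    nlinarith

theorem main (k : ℕ) (hk : 4 ≤ k) : ∃ C : ℝ, ∀ n : ℕ, 16 ≤ n →
    ∃ P : Finset (Equiv.Perm (Fin n)),
      (P.card : ℝ) ≤ C * √(Real.log n * Real.log (Real.log n)) ∧
      ∀ X : Finset (Fin n), X.card = k → Shatters P (2 ^ (Nat.clog 2 k + 1)) X := by
  refine ⟨(k ^ (2 * (k * k)) * ((2 * k + 7) * (2 * (k * k)) + 2) : ℕ) * 7, fun n hn => ?_⟩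
  obtain ⟨d, l, hd, hl, hn', hdl, hb⟩ := params n hn
  have hk2 : k ≤ 2 ^ k := (Nat.lt_two_pow_self).le
  have hd2 : d ≤ 2 ^ d := (Nat.lt_two_pow_self).le
  have hl2 : l ≤ 2 ^ l := (Nat.lt_two_pow_self).le
  obtain ⟨P, hP, hS⟩ := exists_fam k hk n d (d * l) (d + d * l + k) (l + 1 + (l + 1) + l + k) hd
    (by positivity) hn' (by
      rw [pow_add, pow_add]
      exact Nat.mul_le_mul (Nat.mul_le_mul_right _ hd2) hk2) (by
      rw [pow_add, pow_add, pow_add _ (l + 1) (l + 1), ← Nat.mul_assoc]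
      exact Nat.mul_le_mul (Nat.mul_le_mul (Nat.mul_le_mul hdl hdl) hl2) hk2)
  refine ⟨P, ?_, hS⟩
  set s := 2 * (k * k) with hs
  set M := k ^ s with hM
  have h1 : d ≤ d * l := Nat.le_mul_of_pos_right d hl
  have h2 : 1 ≤ d * l := hd.trans_le h1
  have h3 : d + d * l + k ≤ (k + 2) * (d * l) := by nlinarith
  have h4 : d * (l + 1 + (l + 1) + l + k) ≤ (k + 5) * (d * l) := by nlinarith
  have h5 : M * ((d + d * l + k) * s + 1) + d * (M * ((l + 1 + (l + 1) + l + k) * s + 1))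
      ≤ M * ((2 * k + 7) * s + 2) * (d * l) := by
    have e1 : M * ((d + d * l + k) * s + 1) + d * (M * ((l + 1 + (l + 1) + l + k) * s + 1))
        = M * ((d + d * l + k) * s + (d * (l + 1 + (l + 1) + l + k)) * s + (1 + d)) := by ring
    rw [e1, Nat.mul_assoc M]
    refine Nat.mul_le_mul_left M ?_
    have a1 := Nat.mul_le_mul_right s h3
    have a2 := Nat.mul_le_mul_right s h4
    nlinarith
  have h6 : (P.card : ℝ) ≤ ((M * ((2 * k + 7) * s + 2) : ℕ) : ℝ) * ((d * l : ℕ) : ℝ) := by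
    exact_mod_cast hP.trans h5
  refine h6.trans ?_
  rw [mul_assoc]
  exact mul_le_mul_of_nonneg_left hb (by positivity)

end Pool.Agent.Lib.MP_157e4e_co
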