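import Mathlib

set_option autoImplicit false

namespace Pool.Agent.Lib.MP_157e4e_co.Full

open Finset

theorem exists_code (F Wt : Type) [Field F] [Fintype F] [DecidableEq F] [Fintype Wt]
    (h : Fintype.card Wt ≤ Fintype.card F) (r : ℕ) : ∃ code : (Fin r → F) → Wt → F,
      ∀ v v', v ≠ v' → (univ.filter fun ω => code v ω = code v' ω).card < r := by
  classical
  obtain ⟨z⟩ := Function.Embedding.nonempty_of_card_le h
  refine ⟨fun v ω => ∑ i : Fin r, z ω ^ (i : ℕ) * v i, fun v v' hne => ?_⟩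
  by_contra hc
  obtain ⟨e⟩ := Function.Embedding.nonempty_of_card_le (α := Fin r)
    (β := (univ.filter fun ω => ∑ i : Fin r, z ω ^ (i : ℕ) * v i =
      ∑ i : Fin r, z ω ^ (i : ℕ) * v' i : Finset Wt))
    (by rw [Fintype.card_fin, Fintype.card_coe]; exact not_lt.1 hc)
  refine hne (sub_eq_zero.1 (Matrix.eq_zero_of_forall_index_sum_pow_mul_eq_zero
    (f := fun j => z (e j).1) ?_ fun j => ?_))
  · exact z.injective.comp (Subtype.val_injective.comp e.injective)
  · have := (Finset.mem_filter.1 (e j).2).2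
    simp only [Pi.sub_apply, mul_sub, Finset.sum_sub_distrib]
    exact sub_eq_zero.2 this

/-- Digit strings: the digit at `(τ, l)` has `G τ` values. -/
abbrev Dig (Tm Lv : Type) (G : Tm → ℕ) : Type := (i : Tm × Lv) → Fin (G i.1)

variable {Tm Lv : Type} [Fintype Tm] [DecidableEq Tm] [Fintype Lv] [LinearOrder Lv]

/-- The strings whose digit at `(τ, l)` vanishes. -/
def zS (G : Tm → ℕ) (τ : Tm) (l : Lv) : Finset (Dig Tm Lv G) :=
  univ.filter fun ω => (ω (τ, l)).val = 0

/-- The strings that agree with `ω` at all `(τ, l')` with `l < l'`. -/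
def blkS (G : Tm → ℕ) (τ : Tm) (l : Lv) (ω : Dig Tm Lv G) : Finset (Dig Tm Lv G) :=
  univ.filter fun ω' => ∀ l', l < l' → ω' (τ, l') = ω (τ, l')

theorem blkS_sub (G : Tm → ℕ) (τ : Tm) (l l' : Lv) (ω : Dig Tm Lv G) (h : l < l')
    (hω : ω ∈ zS G τ l') : blkS G τ l ω ⊆ zS G τ l' := by
  intro w hw
  refine Finset.mem_filter.2 ⟨mem_univ _, ?_⟩
  rw [(Finset.mem_filter.1 hw).2 l' h]
  exact (Finset.mem_filter.1 hω).2

theorem card_zS (G : Tm → ℕ) (τ : Tm) (l : Lv) :
    (zS G τ l).card * G τ ≤ Fintype.card (Dig Tm Lv G) := by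
  have h := Finset.card_le_card_of_injOn (s := zS G τ l ×ˢ (univ : Finset (Fin (G τ))))
    (t := (univ : Finset (Dig Tm Lv G))) (fun z => Function.update z.1 (τ, l) z.2)
    (fun _ _ => Finset.mem_coe.2 (mem_univ _)) (by
      rintro ⟨ω, a⟩ h1 ⟨ω', a'⟩ h2 h3
      have h4 := (Finset.mem_filter.1 (Finset.mem_product.1 (Finset.mem_coe.1 h1)).1).2
      have h5 := (Finset.mem_filter.1 (Finset.mem_product.1 (Finset.mem_coe.1 h2)).1).2
      refine Prod.ext (funext fun i => ?_) ?_
      · by_cases hi : i = (τ, l)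
        · subst hi
          exact Fin.ext (h4.trans h5.symm)
        · have := congrFun h3 i
          simpa only [Function.update_of_ne hi] using this
      · have := congrFun h3 (τ, l)
        simpa only [Function.update_self] using this)
  simpa using h

theorem good_zS (G : Tm → ℕ) (hG : ∀ τ, 0 < G τ) (τ : Tm) (l : Lv) (Bad : Finset (Dig Tm Lv G))
    (hB : 2 * Bad.card ≤ Fintype.card (Dig Tm Lv G)) :
    Fintype.card (Dig Tm Lv G) ≤ 2 * G τ *
      ((zS G τ l).filter fun ω => ∃ ω' ∈ blkS G τ l ω, ω' ∉ Bad).card := by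
  have h := Finset.card_le_card_of_injOn (s := Badᶜ)
    (t := (univ : Finset (Fin (G τ))) ×ˢ
      ((zS G τ l).filter fun ω => ∃ ω' ∈ blkS G τ l ω, ω' ∉ Bad))
    (fun w => (w (τ, l), Function.update w (τ, l) ⟨0, hG τ⟩)) (by
      intro w hw
      refine Finset.mem_coe.2 (Finset.mem_product.2 ⟨mem_univ _, Finset.mem_filter.2
        ⟨Finset.mem_filter.2 ⟨mem_univ _, by simp⟩, w, Finset.mem_filter.2 ⟨mem_univ _, ?_⟩,
          Finset.mem_compl.1 (Finset.mem_coe.1 hw)⟩⟩)
      intro l' hl'
      have : (τ, l') ≠ (τ, l) := fun he => hl'.ne' (Prod.mk.inj he).2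
      simp only [Function.update_of_ne this]) (by
      intro w _ w' _ h3
      funext i
      by_cases hi : i = (τ, l)
      · subst hi
        exact congrArg Prod.fst h3
      · have := congrFun (congrArg Prod.snd h3) i
        simpa only [Function.update_of_ne hi] using this)
  rw [Finset.card_product, Finset.card_univ, Fintype.card_fin, Finset.card_compl] at h
  rw [mul_assoc]
  omega

end Pool.Agent.Lib.MP_157e4e_co.Full
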