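import Mathlib

set_option autoImplicit false

namespace Pool.Agent.Lib.MP_157e4e_co.Full

open Finset

variable {α : Type}

/-- The ordering that the key `o` induces on `X`. -/
def relOf (o : α → ℤ) (X : Finset α) : Finset (α × α) :=
  (X ×ˢ X).filter fun p => o p.1 < o p.2

/-- `o` is injective on `X` and the classes of the relations `E i`, `i ≤ s`, are convex. -/
def Cvx (E : ℕ → α → α → Prop) (s : ℕ) (X : Finset α) (o : α → ℤ) : Prop :=
  (∀ x ∈ X, ∀ y ∈ X, o x = o y → x = y) ∧
    ∀ i ≤ s, ∀ a ∈ X, ∀ b ∈ X, ∀ c ∈ X, E i a b → o a < o c → o c < o b → E i a c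

theorem Cvx.neg {E : ℕ → α → α → Prop} {s : ℕ} {X : Finset α} {o : α → ℤ}
    (hE : ∀ i, Equivalence (E i)) (h : Cvx E s X o) : Cvx E s X fun x => - o x := by
  refine ⟨fun x hx y hy hxy => h.1 x hx y hy (by simpa using hxy), ?_⟩
  intro i hi a ha b hb c hc hab h1 h2
  have h3 := h.2 i hi b hb a ha c hc ((hE i).symm hab) (by simpa using h2) (by simpa using h1)
  exact (hE i).trans hab h3

theorem ins_before [DecidableEq α] {E : ℕ → α → α → Prop} {s : ℕ} {X : Finset α} {o : α → ℤ} {x : α}
    (hE : ∀ i, Equivalence (E i)) (hmono : ∀ i j a b, i ≤ j → E j a b → E i a b)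
    (hx : x ∉ X) (j : ℕ) (hj : ∃ y ∈ X, E j x y) (hmax : ∀ i ≤ s, ∀ y ∈ X, E i x y → i ≤ j)
    (h : Cvx E s X o) :
    ∃ o' : α → ℤ, Cvx E s (insert x X) o' ∧ (∀ a ∈ X, ∀ b ∈ X, o' a < o' b ↔ o a < o b) ∧
      ∀ y ∈ X, E j x y → o' x < o' y := by
  classical
  obtain ⟨y0, hy0, hmin⟩ := Finset.exists_min_image (X.filter fun y => E j x y) o
    (by obtain ⟨y, hy, h1⟩ := hj; exact ⟨y, Finset.mem_filter.2 ⟨hy, h1⟩⟩)
  obtain ⟨hy0X, hy0E⟩ := Finset.mem_filter.1 hy0
  have hmin' : ∀ y ∈ X, E j x y → o y0 ≤ o y := fun y hy h1 =>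
    hmin y (Finset.mem_filter.2 ⟨hy, h1⟩)
  let o' : α → ℤ := fun y => if y = x then 2 * o y0 else 2 * o y + 1
  have ox : o' x = 2 * o y0 := by simp [o']
  have oy : ∀ y ∈ X, o' y = 2 * o y + 1 := fun y hy => by
    have : y ≠ x := fun he => hx (he ▸ hy)
    simp [o', this]
  refine ⟨o', ⟨?_, ?_⟩, ?_, ?_⟩
  · intro a ha b hb hab
    rw [Finset.mem_insert] at ha hb
    rcases ha with rfl | ha <;> rcases hb with rfl | hb
    · rfl
    · rw [ox, oy b hb] at hab; omega
    · rw [ox, oy a ha] at hab; omega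
    · rw [oy a ha, oy b hb] at hab
      exact h.1 a ha b hb (by omega)
  · intro i hi a ha b hb c hc hab h1 h2
    rw [Finset.mem_insert] at ha hb hc
    rcases hc with rfl | hc
    · rcases ha with rfl | ha
      · exact (hE i).refl _
      rcases hb with rfl | hb
      · exact hab
      rw [ox, oy a ha] at h1
      rw [ox, oy b hb] at h2
      have hay : E i a y0 := by
        rcases lt_or_eq_of_le (show o y0 ≤ o b by omega) with h3 | h3
        · exact h.2 i hi a ha b hb y0 hy0X hab (by omega) h3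
        · rw [h.1 y0 hy0X b hb h3]; exact hab
      rcases le_total i j with hij | hij
      · exact (hE i).trans hay ((hE i).symm (hmono i j _ _ hij hy0E))
      · have h4 : E j c a := (hE j).trans hy0E ((hE j).symm (hmono j i _ _ hij hay))
        have := hmin' a ha h4
        omega
    rcases ha with rfl | ha
    · rcases hb with rfl | hb
      · omega
      have hij := hmax i hi b hb hab
      have h3 : E i a y0 := hmono i j _ _ hij hy0E
      rw [ox, oy c hc] at h1
      rw [oy c hc, oy b hb] at h2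
      rcases lt_or_eq_of_le (show o y0 ≤ o c by omega) with h4 | h4
      · exact (hE i).trans h3 (h.2 i hi y0 hy0X b hb c hc ((hE i).trans ((hE i).symm h3) hab) h4
          (by omega))
      · rw [← h.1 y0 hy0X c hc h4]; exact h3
    rcases hb with rfl | hb
    · have hij := hmax i hi a ha ((hE i).symm hab)
      have h3 : E i b y0 := hmono i j _ _ hij hy0E
      rw [oy a ha, oy c hc] at h1
      rw [oy c hc, ox] at h2
      exact h.2 i hi a ha y0 hy0X c hc ((hE i).trans hab h3) (by omega) (by omega)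
    · rw [oy a ha, oy c hc] at h1
      rw [oy c hc, oy b hb] at h2
      exact h.2 i hi a ha b hb c hc hab (by omega) (by omega)
  · intro a ha b hb
    rw [oy a ha, oy b hb]
    omega
  · intro y hy h1
    have := hmin' y hy h1
    rw [ox, oy y hy]
    omega

open Classical in
/-- The orderings of `X` in which all classes are convex. -/
noncomputable def cvxRels (E : ℕ → α → α → Prop) (s : ℕ) (X : Finset α) : Finset (Finset (α × α)) :=
  (X ×ˢ X).powerset.filter fun r => ∃ o, Cvx E s X o ∧ r = relOf o X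

theorem mem_cvxRels {E : ℕ → α → α → Prop} {s : ℕ} {X : Finset α} {r : Finset (α × α)} :
    r ∈ cvxRels E s X ↔ ∃ o, Cvx E s X o ∧ r = relOf o X := by
  classical
  unfold cvxRels
  rw [Finset.mem_filter, Finset.mem_powerset]
  refine ⟨fun h => h.2, fun h => ⟨?_, h⟩⟩
  obtain ⟨o, -, rfl⟩ := h
  exact Finset.filter_subset _ _

theorem card_cvxRels [DecidableEq α] {E : ℕ → α → α → Prop} {s : ℕ}
    (hE : ∀ i, Equivalence (E i)) (hmono : ∀ i j a b, i ≤ j → E j a b → E i a b)
    (h0 : ∀ a b, E 0 a b) (X : Finset α) : 2 ^ (X.card - 1) ≤ (cvxRels E s X).card := by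
  classical
  induction X using Finset.induction_on with
  | empty =>
    refine Finset.card_pos.2 ⟨relOf (fun _ => 0) ∅, mem_cvxRels.2 ⟨_, ⟨?_, ?_⟩, rfl⟩⟩ <;> simp
  | insert x X hx ih =>
    rcases X.eq_empty_or_nonempty with rfl | ⟨z, hz⟩
    · refine le_trans (by simp) (Finset.card_pos.2
        ⟨relOf (fun _ => 0) (insert x ∅), mem_cvxRels.2 ⟨_, ⟨?_, ?_⟩, rfl⟩⟩) <;> simp
    let P : ℕ → Prop := fun i => ∃ y ∈ X, E i x y
    let j := Nat.findGreatest P s
    have hj : P j := Nat.findGreatest_spec (Nat.zero_le s) ⟨z, hz, h0 _ _⟩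
    have hmax : ∀ i ≤ s, ∀ y ∈ X, E i x y → i ≤ j := fun i hi y hy h1 =>
      Nat.le_findGreatest hi ⟨y, hy, h1⟩
    obtain ⟨y1, hy1, hE1⟩ := hj
    have hsurj : Set.SurjOn
        (fun r : Finset (α × α) => (r.filter fun p => p.1 ∈ X ∧ p.2 ∈ X, decide ((x, y1) ∈ r)))
        (cvxRels E s (insert x X) : Set (Finset (α × α)))
        ((cvxRels E s X ×ˢ (univ : Finset Bool) : Finset (Finset (α × α) × Bool)) : Set _) := by
      rintro ⟨r, b⟩ hr
      obtain ⟨o, ho, rfl⟩ := mem_cvxRels.1 (Finset.mem_product.1 (Finset.mem_coe.1 hr)).1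
      have key : ∃ o' : α → ℤ, Cvx E s (insert x X) o' ∧
          (∀ a ∈ X, ∀ b ∈ X, o' a < o' b ↔ o a < o b) ∧ (o' x < o' y1 ↔ b = true) := by
        cases b
        · obtain ⟨o', h1, h2, h3⟩ := ins_before hE hmono hx j ⟨y1, hy1, hE1⟩ hmax (ho.neg hE)
          refine ⟨fun y => - o' y, h1.neg hE, fun a ha b hb => ?_, ?_⟩
          · have := h2 b hb a ha
            simp only [neg_lt_neg_iff] at this ⊢
            exact this
          · have := h3 y1 hy1 hE1
            simp only [neg_lt_neg_iff, Bool.false_eq_true, iff_false, not_lt]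
            exact this.le
        · obtain ⟨o', h1, h2, h3⟩ := ins_before hE hmono hx j ⟨y1, hy1, hE1⟩ hmax ho
          exact ⟨o', h1, h2, by simpa using h3 y1 hy1 hE1⟩
      obtain ⟨o', h1, h2, h3⟩ := key
      refine ⟨relOf o' (insert x X), Finset.mem_coe.2 (mem_cvxRels.2 ⟨o', h1, rfl⟩), ?_⟩
      refine Prod.ext ?_ ?_
      · ext ⟨a, c⟩
        simp only [relOf, Finset.mem_filter, Finset.mem_product, Finset.mem_insert]
        constructor
        · rintro ⟨⟨-, h4⟩, ha, hc⟩
          exact ⟨⟨ha, hc⟩, (h2 a ha c hc).1 h4⟩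
        · rintro ⟨⟨ha, hc⟩, h4⟩
          exact ⟨⟨⟨Or.inr ha, Or.inr hc⟩, (h2 a ha c hc).2 h4⟩, ha, hc⟩
      · have : (x, y1) ∈ relOf o' (insert x X) ↔ b = true := by
          rw [← h3]
          simp [relOf, hy1]
        cases b
        · simpa using this
        · simpa using this
    have h1 := Finset.card_le_card_of_surjOn _ hsurj
    rw [Finset.card_product, Finset.card_univ, Fintype.card_bool] at h1
    rw [Finset.card_insert_of_notMem hx]
    have h2 : 1 ≤ X.card := Finset.card_pos.2 ⟨z, hz⟩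
    have h3 : X.card + 1 - 1 = (X.card - 1) + 1 := by omega
    rw [h3, pow_succ]
    omega

open Classical in
/-- The number of points of `X` below the whole class of `x`. -/
noncomputable def below (E : α → α → Prop) (X : Finset α) (o : α → ℤ) (x : α) : ℕ :=
  (X.filter fun z => ∀ y ∈ X, E x y → o z < o y).card

theorem below_lt {E : α → α → Prop} (hE : Equivalence E) {X : Finset α} (o : α → ℤ) {x : α}
    (hx : x ∈ X) : below E X o x < X.card := by
  classical
  unfold below
  refine Finset.card_lt_card ⟨Finset.filter_subset _ _, fun h => ?_⟩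
  have := (Finset.mem_filter.1 (h hx)).2 x hx (hE.refl x)
  exact lt_irrefl _ this

theorem below_congr {E : α → α → Prop} (hE : Equivalence E) (X : Finset α) (o : α → ℤ) {x y : α}
    (h : E x y) : below E X o x = below E X o y := by
  classical
  unfold below
  congr 1
  refine Finset.filter_congr fun z _ => ?_
  exact ⟨fun h1 w hw h2 => h1 w hw (hE.trans h h2), fun h1 w hw h2 => h1 w hw (hE.trans (hE.symm h) h2)⟩

theorem below_strict {E : ℕ → α → α → Prop} {s : ℕ} (hE : ∀ i, Equivalence (E i)) {X : Finset α}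
    {o : α → ℤ} (h : Cvx E s X o) {i : ℕ} (hi : i ≤ s) {x y : α} (hx : x ∈ X) (hy : y ∈ X)
    (hxy : ¬ E i x y) (hlt : o x < o y) : below (E i) X o x < below (E i) X o y := by
  classical
  have key : ∀ w ∈ X, E i y w → o x < o w := by
    intro w hw h1
    by_contra hc
    rcases lt_or_eq_of_le (not_lt.1 hc) with h2 | h2
    · have h3 := h.2 i hi w hw y hy x hx ((hE i).symm h1) h2 hlt
      exact hxy ((hE i).symm ((hE i).trans h1 h3))
    · rw [h.1 w hw x hx h2] at h1
      exact hxy ((hE i).symm h1)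
  unfold below
  refine Finset.card_lt_card ⟨fun z hz => ?_, fun hsub => ?_⟩
  · obtain ⟨hz1, hz2⟩ := Finset.mem_filter.1 hz
    exact Finset.mem_filter.2 ⟨hz1, fun w hw h1 => (hz2 x hx ((hE i).refl x)).trans (key w hw h1)⟩
  · have := (Finset.mem_filter.1 (hsub (Finset.mem_filter.2 ⟨hx, key⟩))).2 x hx ((hE i).refl x)
    exact lt_irrefl _ this

end Pool.Agent.Lib.MP_157e4e_co.Full
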