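import Mathlib

set_option autoImplicit false

namespace Pool.Agent.Lib.MP_157e4e_co.Full

open Finset

/-- Regions split into cells, every cell content being encoded by a code. -/
structure Sys (N : ℕ) (Reg Cell Lv Tm Wt Cn Sy : Type) where
  f : Reg → Fin N → Cell → Cn
  code : Cn → Wt → Sy
  dec : Lv → Finset (Reg × Cell)
  enc : Finset (Reg × Cell) → Lv
  Z : Tm → Lv → Finset Wt
  Blk : Tm → Lv → Wt → Finset Wt

variable {N : ℕ} {Reg Cell Lv Tm Wt Cn Sy : Type}

namespace Sys

variable (M : Sys N Reg Cell Lv Tm Wt Cn Sy)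

/-- The symbol of `x` at the position `i`. -/
def sym (i : Reg × Cell × Wt) (x : Fin N) : Sy := M.code (M.f i.1 x i.2.1) i.2.2

/-- Two points have the same symbols on `S`. -/
def Agree (S : Set (Reg × Cell × Wt)) (x y : Fin N) : Prop := ∀ i ∈ S, M.sym i x = M.sym i y

open Classical in
/-- The symbols of `x` on `S`. -/
noncomputable def lab (S : Set (Reg × Cell × Wt)) (x : Fin N) : Reg × Cell × Wt → Option Sy :=
  fun i => if i ∈ S then some (M.sym i x) else none

theorem lab_eq_iff (S : Set (Reg × Cell × Wt)) (x y : Fin N) :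
    M.lab S x = M.lab S y ↔ M.Agree S x y := by
  constructor
  · intro h i hi
    have := congrFun h i
    simpa [lab, hi] using this
  · intro h
    funext i
    by_cases hi : i ∈ S
    · simp [lab, hi, h i hi]
    · simp [lab, hi]

/-- The hash of the region `ρ` with index `(τ, l)`. -/
def hashS (τ : Tm) (l : Lv) (ρ : Reg) : Set (Reg × Cell × Wt) := {i | i.1 = ρ ∧ i.2.2 ∈ M.Z τ l}

end Sys

open Classical in
/-- Forget the symbols outside `S`. -/
noncomputable def proj {ι β : Type} (S : Set ι) (w : ι → Option β) : ι → Option β :=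
  fun i => if i ∈ S then w i else none

theorem proj_lab (M : Sys N Reg Cell Lv Tm Wt Cn Sy) {S S' : Set (Reg × Cell × Wt)} (h : S ⊆ S')
    (x : Fin N) : proj S (M.lab S' x) = M.lab S x := by
  funext i
  by_cases hi : i ∈ S
  · simp [proj, Sys.lab, hi, h hi]
  · simp [proj, Sys.lab, hi]

theorem card_image_le_of_ker {Ω β γ : Type} [Fintype Ω] [Fintype β] [DecidableEq γ]
    (g : Ω → β) (F : Ω → γ) (h : ∀ x y, g x = g y → F x = F y) :
    (univ.image F).card ≤ Fintype.card β := by
  classical
  rcases isEmpty_or_nonempty Ω with hΩ | hΩ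
  · simp
  have : univ.image F ⊆ (univ : Finset β).image fun b => F (Function.invFun g b) := by
    intro z hz
    obtain ⟨x, -, rfl⟩ := Finset.mem_image.1 hz
    exact Finset.mem_image.2 ⟨g x, mem_univ _, h _ _ (Function.invFun_eq ⟨x, rfl⟩)⟩
  exact (Finset.card_le_card this).trans (Finset.card_image_le.trans (by simp))

theorem exists_ker_map {Ω β γ : Type} [Fintype β] [Fintype γ] (g : Ω → β)
    (h : Fintype.card β ≤ Fintype.card γ) : ∃ g' : Ω → γ, ∀ x y, g' x = g' y ↔ g x = g y := by
  obtain ⟨e⟩ := Function.Embedding.nonempty_of_card_le h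
  exact ⟨fun x => e (g x), fun x y => e.injective.eq_iff⟩

theorem match_count {B Arg : Type} [Fintype B] [DecidableEq B] [Fintype Arg] [DecidableEq Arg]
    (k : ℕ) (pts : B → Arg) (tg : B → Fin k) (h : ∀ b b', pts b = pts b' → tg b = tg b') :
    Fintype.card (Arg → Fin k) ≤ k ^ Fintype.card B *
      (univ.filter fun ψ : Arg → Fin k => ∀ b, ψ (pts b) = tg b).card := by
  classical
  let F : (Arg → Fin k) → (B → Fin k) × (Arg → Fin k) := fun ψ =>
    (fun b => ψ (pts b), fun i => if hi : ∃ b, pts b = i then tg hi.choose else ψ i)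
  have hinj : Function.Injective F := by
    intro ψ ψ' hF
    have h1 := congrArg Prod.fst hF
    have h2 := congrArg Prod.snd hF
    funext i
    by_cases hi : ∃ b, pts b = i
    · obtain ⟨t, rfl⟩ := hi
      exact congrFun h1 t
    · have := congrFun h2 i
      simpa [F, hi] using this
  have hmap : ∀ ψ ∈ (univ : Finset (Arg → Fin k)), F ψ ∈
      (univ : Finset (B → Fin k)) ×ˢ
        (univ.filter fun ψ : Arg → Fin k => ∀ b, ψ (pts b) = tg b) := by
    intro ψ _
    refine Finset.mem_product.2 ⟨mem_univ _, Finset.mem_filter.2 ⟨mem_univ _, fun b => ?_⟩⟩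
    have hi : ∃ b', pts b' = pts b := ⟨b, rfl⟩
    simp only [F, hi, dif_pos]
    exact h _ _ hi.choose_spec
  have := Finset.card_le_card_of_injOn F hmap hinj.injOn
  rw [Finset.card_product] at this
  simpa using this

end Pool.Agent.Lib.MP_157e4e_co.Full
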