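import Mathlib
import Pool.Agent.Lib.MP_157e4e_co.Defs
import Pool.Agent.Lib.MP_157e4e_co.Lex
import Pool.Agent.Lib.MP_157e4e_co.Cover
import Pool.Agent.Lib.MP_157e4e_co.FLam
import Pool.Agent.Lib.MP_157e4e_co.FSys

set_option autoImplicit false

namespace Pool.Agent.Lib.MP_157e4e_co.Full

open Finset

variable {N : ℕ} {Reg Cell Lv Tm Wt Cn Sy : Type}

/-- The properties of the code, of the zero sets and of the blocks. -/
structure Sys.Ok [LinearOrder Lv] [Fintype Wt] [DecidableEq Wt] [DecidableEq Sy]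
    (M : Sys N Reg Cell Lv Tm Wt Cn Sy) (G : Tm → ℕ) (r : ℕ) : Prop where
  blk_sub : ∀ τ l l' ω, l < l' → ω ∈ M.Z τ l' → M.Blk τ l ω ⊆ M.Z τ l'
  good : ∀ τ l (Bad : Finset Wt), 2 * Bad.card ≤ Fintype.card Wt →
    Fintype.card Wt ≤ 2 * G τ *
      ((M.Z τ l).filter fun ω => ∃ ω' ∈ M.Blk τ l ω, ω' ∉ Bad).card
  agree : ∀ v v', v ≠ v' → (univ.filter fun ω => M.code v ω = M.code v' ω).card < r
  r_le : r ≤ Fintype.card Wt

theorem Sys.Ok.inj [LinearOrder Lv] [Fintype Wt] [DecidableEq Wt] [DecidableEq Sy]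
    {M : Sys N Reg Cell Lv Tm Wt Cn Sy} {G : Tm → ℕ} {r : ℕ} (h : M.Ok G r) {v v' : Cn}
    (hv : v ≠ v') : ∃ ω, M.code v ω ≠ M.code v' ω := by
  by_contra hc
  push Not at hc
  have h1 := h.agree v v' hv
  rw [Finset.filter_true_of_mem fun ω _ => hc ω, Finset.card_univ] at h1
  have := h.r_le
  omega

variable [DecidableEq Reg] [DecidableEq Cell]

/-- The positions read at the key `q = (phase, level, cell)`. -/
def keyS (M : Sys N Reg Cell Lv Tm Wt Cn Sy) {s : ℕ} (τ : Tm) (R : Fin s → Reg) (tm : Fin s → Tm)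
    (ω : Fin s → Wt) (q : Fin s × Lv × Cell) : Set (Reg × Cell × Wt) :=
  {i | (i.1 = R q.1 ∧ i.2.1 = q.2.2 ∧ i.2.2 ∈ M.Blk (tm q.1) q.2.1 (ω q.1)) ∨
    ∃ t < q.1, i.1 = R t ∧ ((i.1, i.2.1) ∈ M.dec q.2.1 ∨
      i.2.2 ∈ M.Z τ (M.enc (insert (R q.1, q.2.2) (M.dec q.2.1))))}

/-- All positions read at the decisive keys. -/
def dataS (M : Sys N Reg Cell Lv Tm Wt Cn Sy) {s : ℕ} (τ : Tm) (R : Fin s → Reg) (l : Fin s → Lv)
    (κ : Fin s → Cell) : Set (Reg × Cell × Wt) :=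
  {i | (∃ t, i.1 = R t ∧ i.2.1 = κ t) ∨
    ∃ t t', i.1 = R t' ∧ i.2.2 ∈ M.Z τ (M.enc (insert (R t, κ t) (M.dec (l t))))}

theorem card_data [Fintype Reg] [Fintype Cell] [Fintype Wt] [DecidableEq Wt] [Fintype Cn]
    [Fintype Sy] [DecidableEq Sy] (M : Sys N Reg Cell Lv Tm Wt Cn Sy) {s : ℕ} (τ : Tm)
    (hSy : 0 < Fintype.card Sy) (h : ℕ) (hh : ∀ l, (M.Z τ l).card ≤ h)
    (R : Fin s → Reg) (l : Fin s → Lv) (κ : Fin s → Cell) :
    (univ.image (M.lab (dataS M τ R l κ))).card ≤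
      Fintype.card Cn ^ s * (Fintype.card Sy ^ (Fintype.card Cell * h)) ^ (s * s) := by
  classical
  let Zt : Fin s → Finset Wt := fun t => M.Z τ (M.enc (insert (R t, κ t) (M.dec (l t))))
  let g : Fin N → (Fin s → Cn) × ((t : Fin s × Fin s) → Cell × Zt t.1 → Sy) := fun x =>
    (fun t => M.f (R t) x (κ t), fun t j => M.sym (R t.2, j.1, j.2.1) x)
  refine (card_image_le_of_ker g _ ?_).trans ?_
  · intro x y hxy
    rw [M.lab_eq_iff]
    rintro ⟨ρ, c, w⟩ (⟨t, h1, h2⟩ | ⟨t, t', h1, h2⟩)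
    · have := congrFun (congrArg Prod.fst hxy) t
      simp only at h1 h2
      subst h1 h2
      simp only [g] at this
      simp only [Sys.sym, this]
    · have := congrFun (congrFun (congrArg Prod.snd hxy) (t, t')) (c, ⟨w, h2⟩)
      simp only at h1
      subst h1
      exact this
  · rw [Fintype.card_prod, Fintype.card_fun, Fintype.card_fin, Fintype.card_pi]
    refine Nat.mul_le_mul_left _ ?_
    refine (Finset.prod_le_pow_card _ _ (Fintype.card Sy ^ (Fintype.card Cell * h)) ?_).trans ?_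
    · intro t _
      rw [Fintype.card_fun, Fintype.card_prod, Fintype.card_coe]
      exact Nat.pow_le_pow_right hSy (Nat.mul_le_mul_left _ (hh _))
    · simp

/-- A server: an ordered list of regions, times, home digits and a priority function. -/
abbrev Srv (s k : ℕ) (Reg Cell Lv Tm Wt Sy : Type) : Type :=
  ((Fin s → Reg) × (Fin s → Tm)) × (Fin s → Wt) ×
    ((Fin s × Lv × Cell) × (Reg × Cell × Wt → Option Sy) → Fin k)

/-- The order of the keys. -/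
def idx {s : ℕ} (q : Fin s ×ₗ (Lv ×ₗ Cell)) : Fin s × Lv × Cell :=
  ((ofLex q).1, ofLex (ofLex q).2)

variable [Fintype Lv] [LinearOrder Lv] [Fintype Cell]

/-- The permutation defined by a server. -/
noncomputable def permS [LinearOrder Cell] (M : Sys N Reg Cell Lv Tm Wt Cn Sy) {s k : ℕ} (τ : Tm)
    (v : Srv s k Reg Cell Lv Tm Wt Sy) : Equiv.Perm (Fin N) :=
  permOf fun x => (toLex (toLex fun q : Fin s ×ₗ (Lv ×ₗ Cell) =>
    v.2.2 (idx q, M.lab (keyS M τ v.1.1 v.1.2 v.2.1 (idx q)) x), x) :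
      Lex (Fin s ×ₗ (Lv ×ₗ Cell) → Fin k) ×ₗ Fin N)

theorem permS_lt [LinearOrder Cell] (M : Sys N Reg Cell Lv Tm Wt Cn Sy) {s k : ℕ} (τ : Tm)
    (v : Srv s k Reg Cell Lv Tm Wt Sy) (q : Fin s × Lv × Cell) (x y : Fin N)
    (h1 : ∀ q' : Fin s × Lv × Cell, (q'.1 < q.1 ∨ q'.1 = q.1 ∧ (q'.2.1 < q.2.1 ∨
      q'.2.1 = q.2.1 ∧ q'.2.2 < q.2.2)) → M.Agree (keyS M τ v.1.1 v.1.2 v.2.1 q') x y)
    (h2 : v.2.2 (q, M.lab (keyS M τ v.1.1 v.1.2 v.2.1 q) x) <
      v.2.2 (q, M.lab (keyS M τ v.1.1 v.1.2 v.2.1 q) y)) :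
    permS M τ v x < permS M τ v y := by
  unfold permS
  rw [permOf_lt]
  · rw [Prod.Lex.toLex_lt_toLex]
    left
    refine ⟨toLex (q.1, toLex q.2), fun q' hq' => ?_, h2⟩
    have : M.Agree (keyS M τ v.1.1 v.1.2 v.2.1 (idx q')) x y := by
      apply h1
      rcases Prod.Lex.lt_iff.1 hq' with h | ⟨h, h'⟩
      · exact Or.inl h
      · refine Or.inr ⟨h, ?_⟩
        rcases Prod.Lex.lt_iff.1 h' with h3 | ⟨h3, h4⟩
        · exact Or.inl h3
        · exact Or.inr ⟨h3, h4⟩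
    simp only [Pi.toLex_apply]
    rw [(M.lab_eq_iff _ x y).2 this]
  · intro a b hab
    exact congrArg (fun z => (ofLex z).2) hab

end Pool.Agent.Lib.MP_157e4e_co.Full
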