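import Mathlib
import Pool.Agent.Lib.MP_157e4e_co.FCover

set_option autoImplicit false

namespace Pool.Agent.Lib.MP_157e4e_co.Full

open Finset

variable {N : ℕ} {Reg Cell Lv Tm Wt Cn Sy : Type}
  [DecidableEq Reg] [DecidableEq Cell] [LinearOrder Lv] [LinearOrder Cell]

/-- The situation in which the servers with the ordered regions `R` shatter `X`. -/
structure Succ (M : Sys N Reg Cell Lv Tm Wt Cn Sy) (X : Finset (Fin N)) {s : ℕ} (τ : Tm)
    (R : Fin s → Reg) (tm : Fin s → Tm) (l : Fin s → Lv) (κ : Fin s → Cell) : Prop where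
  known : ∀ t t' c, (R t', c) ∈ M.dec (l t) → c = κ t'
  act : ∀ t, ∀ x ∈ X, ∀ y ∈ X, (∀ t' < t, M.f (R t') x = M.f (R t') y) →
    (∀ l' < l t, M.Agree (M.hashS (tm t) (l t) (R t)) x y) ∧
      ∀ c < κ t, M.f (R t) x c = M.f (R t) y c
  full : ∀ t, ∀ x ∈ X, ∀ y ∈ X, M.f (R t) x ≠ M.f (R t) y →
    M.f (R t) x (κ t) ≠ M.f (R t) y (κ t)
  info : ∀ t, ∀ t' < t, ∀ x ∈ X, ∀ y ∈ X, M.f (R t') x ≠ M.f (R t') y →
    M.f (R t) x ≠ M.f (R t) y ∨ ∃ t'' < t,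
      ((R t'', κ t'') ∈ M.dec (l t) ∧ M.f (R t'') x ≠ M.f (R t'') y) ∨
      ¬ M.Agree (M.hashS τ (M.enc (insert (R t, κ t) (M.dec (l t)))) (R t'')) x y
  sep : ∀ x ∈ X, ∀ y ∈ X, x ≠ y → ∃ t, M.f (R t) x ≠ M.f (R t) y

/-- Agreement on the first `i` regions. -/
def Pre (M : Sys N Reg Cell Lv Tm Wt Cn Sy) {s : ℕ} (R : Fin s → Reg) (i : ℕ) (x y : Fin N) :
    Prop := ∀ t : Fin s, t.val < i → M.f (R t) x = M.f (R t) y

omit [DecidableEq Reg] [DecidableEq Cell] [LinearOrder Lv] [LinearOrder Cell] in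
theorem pre_equiv (M : Sys N Reg Cell Lv Tm Wt Cn Sy) {s : ℕ} (R : Fin s → Reg) (i : ℕ) :
    Equivalence (Pre M R i) :=
  ⟨fun _ _ _ => rfl, fun h t ht => (h t ht).symm, fun h h' t ht => (h t ht).trans (h' t ht)⟩

theorem Succ.key_sub {M : Sys N Reg Cell Lv Tm Wt Cn Sy} {X : Finset (Fin N)} {s : ℕ} {τ : Tm}
    {R : Fin s → Reg} {tm : Fin s → Tm} {l : Fin s → Lv} {κ : Fin s → Cell}
    (h : Succ M X τ R tm l κ) (ω : Fin s → Wt) (t : Fin s) :
    keyS M τ R tm ω (t, l t, κ t) ⊆ dataS M τ R l κ := by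
  rintro ⟨ρ, c, w⟩ (⟨h1, h2, -⟩ | ⟨t', -, h1, h2 | h2⟩)
  · exact Or.inl ⟨t, h1, h2⟩
  · simp only at h1 h2
    subst h1
    exact Or.inl ⟨t', rfl, h.known t t' c h2⟩
  · exact Or.inr ⟨t, t', h1, h2⟩

variable [Fintype Wt] [DecidableEq Wt] [DecidableEq Sy]

open Classical in
/-- The positions where two different cell contents have the same symbol. -/
noncomputable def badW (M : Sys N Reg Cell Lv Tm Wt Cn Sy) (X : Finset (Fin N)) (ρ : Reg)
    (c : Cell) : Finset Wt :=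
  univ.filter fun w => ∃ x ∈ X, ∃ y ∈ X, M.f ρ x c ≠ M.f ρ y c ∧
    M.code (M.f ρ x c) w = M.code (M.f ρ y c) w

omit [DecidableEq Reg] [DecidableEq Cell] [LinearOrder Cell] in
theorem card_badW {M : Sys N Reg Cell Lv Tm Wt Cn Sy} {G : Tm → ℕ} {r : ℕ} (hM : M.Ok G r)
    (X : Finset (Fin N)) (ρ : Reg) (c : Cell) :
    (badW M X ρ c).card ≤ X.card * X.card * r := by
  classical
  have h1 : badW M X ρ c ⊆ (X ×ˢ X).biUnion fun p => univ.filter fun w =>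
      M.f ρ p.1 c ≠ M.f ρ p.2 c ∧ M.code (M.f ρ p.1 c) w = M.code (M.f ρ p.2 c) w := by
    intro w hw
    obtain ⟨x, hx, y, hy, h⟩ := (Finset.mem_filter.1 hw).2
    exact Finset.mem_biUnion.2 ⟨(x, y), Finset.mem_product.2 ⟨hx, hy⟩,
      Finset.mem_filter.2 ⟨mem_univ _, h⟩⟩
  refine (Finset.card_le_card h1).trans ((Finset.card_biUnion_le_card_mul _ _ r ?_).trans ?_)
  · intro p _
    by_cases hp : M.f ρ p.1 c = M.f ρ p.2 c
    · simp [hp]
    · refine le_trans (Finset.card_le_card fun w hw => ?_) (hM.agree _ _ hp).le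
      exact Finset.mem_filter.2 ⟨mem_univ _, (Finset.mem_filter.1 hw).2.2⟩
  · rw [Finset.card_product]

theorem Succ.pre_of_agree {M : Sys N Reg Cell Lv Tm Wt Cn Sy} {G : Tm → ℕ} {r : ℕ}
    (hM : M.Ok G r) {X : Finset (Fin N)} {s : ℕ} {τ : Tm}
    {R : Fin s → Reg} {tm : Fin s → Tm} {l : Fin s → Lv} {κ : Fin s → Cell}
    (h : Succ M X τ R tm l κ) (ω : Fin s → Wt) (t : Fin s)
    (hω : ∃ w ∈ M.Blk (tm t) (l t) (ω t), w ∉ badW M X (R t) (κ t)) {x y : Fin N} (hx : x ∈ X)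
    (hy : y ∈ X) (hag : M.Agree (keyS M τ R tm ω (t, l t, κ t)) x y) : Pre M R (t.val + 1) x y := by
  classical
  have h0 : M.f (R t) x = M.f (R t) y := by
    by_contra hne
    obtain ⟨w, hw1, hw2⟩ := hω
    refine hw2 (Finset.mem_filter.2 ⟨mem_univ _, x, hx, y, hy, h.full t x hx y hy hne, ?_⟩)
    exact hag (R t, κ t, w) (Or.inl ⟨rfl, rfl, hw1⟩)
  intro t' ht'
  rcases lt_or_eq_of_le (show t' ≤ t from Fin.le_def.2 (by omega)) with h1 | h1
  · by_contra hne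
    rcases h.info t t' h1 x hx y hy hne with h2 | ⟨t'', h2, ⟨h3, h4⟩ | h3⟩
    · exact h2 h0
    · obtain ⟨w, hw⟩ := hM.inj (h.full t'' x hx y hy h4)
      exact hw (hag (R t'', κ t'', w) (Or.inr ⟨t'', h2, rfl, Or.inl h3⟩))
    · exact h3 fun i hi => hag i (Or.inr ⟨t'', h2, hi.1, Or.inr hi.2⟩)
  · rw [h1]; exact h0

theorem Succ.agree_before {M : Sys N Reg Cell Lv Tm Wt Cn Sy} {G : Tm → ℕ} {r : ℕ}
    (hM : M.Ok G r) {X : Finset (Fin N)} {s : ℕ} {τ : Tm}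
    {R : Fin s → Reg} {tm : Fin s → Tm} {l : Fin s → Lv} {κ : Fin s → Cell}
    (h : Succ M X τ R tm l κ) (ω : Fin s → Wt) (t : Fin s) (hω : ω t ∈ M.Z (tm t) (l t))
    {x y : Fin N} (hx : x ∈ X) (hy : y ∈ X) (hpre : ∀ t' < t, M.f (R t') x = M.f (R t') y)
    (q : Fin s × Lv × Cell)
    (hq : q.1 < t ∨ q.1 = t ∧ (q.2.1 < l t ∨ q.2.1 = l t ∧ q.2.2 < κ t)) :
    M.Agree (keyS M τ R tm ω q) x y := by
  obtain ⟨t', l', c'⟩ := q
  have hle : t' ≤ t := by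
    rcases hq with h1 | h1
    · exact h1.le
    · exact h1.1.le
  rintro ⟨ρ, c, w⟩ (⟨h1, h2, h3⟩ | ⟨t'', h0, h1, -⟩)
  · simp only at h1 h2 h3 hq
    subst h1 h2
    rcases hq with h4 | ⟨rfl, h4 | ⟨rfl, h4⟩⟩
    · simp only [Sys.sym, hpre t' h4]
    · exact (h.act t' x hx y hy hpre).1 l' h4 _ ⟨rfl, hM.blk_sub _ _ _ _ h4 hω h3⟩
    · simp only [Sys.sym, (h.act t' x hx y hy hpre).2 c h4]
  · simp only at h1 h0
    subst h1
    simp only [Sys.sym, hpre t'' (lt_of_lt_of_le h0 hle)]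

variable [Fintype Reg] [Fintype Cell] [Fintype Lv] [Fintype Tm] [DecidableEq Tm] [Fintype Sy]

/-- The finite part of a challenge. -/
abbrev Stru (s k : ℕ) (Reg Cell Lv Tm : Type) : Type :=
  ((Fin s → Reg) × (Fin s → Tm)) × (Fin s → Lv) × (Fin s → Cell) × (Fin s → Fin k → Fin k)

/-- A server meets a challenge. -/
def Sat (M : Sys N Reg Cell Lv Tm Wt Cn Sy) {s k : ℕ} (τ : Tm)
    (v : Srv s k Reg Cell Lv Tm Wt Sy)
    (c : Stru s k Reg Cell Lv Tm × (Fin k → Reg × Cell × Wt → Option Sy)) : Prop :=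
  v.1 = c.1.1 ∧ (∀ t, v.2.1 t ∈ M.Z (c.1.1.2 t) (c.1.2.1 t)) ∧
    ∀ b : Fin s × Fin k, v.2.2 ((b.1, c.1.2.1 b.1, c.1.2.2.1 b.1),
      proj (keyS M τ c.1.1.1 c.1.1.2 v.2.1 (b.1, c.1.2.1 b.1, c.1.2.2.1 b.1)) (c.2 b.2)) =
        c.1.2.2.2 b.1 b.2

open Classical in
theorem Succ.frac {M : Sys N Reg Cell Lv Tm Wt Cn Sy} {G : Tm → ℕ} {r : ℕ}
    (hM : M.Ok G r) {X : Finset (Fin N)} {s k : ℕ} {τ : Tm}
    {R : Fin s → Reg} {tm : Fin s → Tm} {l : Fin s → Lv} {κ : Fin s → Cell}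
    (h : Succ M X τ R tm l κ) (hr : 2 * (X.card * X.card * r) ≤ Fintype.card Wt) (Gm : ℕ)
    (hG : ∀ t, G (tm t) ≤ Gm) (x : Fin k → Fin N) (hx : ∀ a, x a ∈ X)
    (tg : Fin s → Fin k → Fin k)
    (htg : ∀ t a b, Pre M R (t.val + 1) (x a) (x b) → tg t a = tg t b) :
    Fintype.card (Srv s k Reg Cell Lv Tm Wt Sy) ≤
      (Fintype.card Reg ^ s * Fintype.card Tm ^ s * (2 * Gm) ^ s * k ^ (s * k)) *
      (univ.filter fun v : Srv s k Reg Cell Lv Tm Wt Sy =>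
        Sat M τ v (((R, tm), l, κ, tg), fun a => M.lab (dataS M τ R l κ) (x a))).card := by
  let good : Fin s → Finset Wt := fun t => (M.Z (tm t) (l t)).filter fun ω =>
    ∃ ω' ∈ M.Blk (tm t) (l t) ω, ω' ∉ badW M X (R t) (κ t)
  have hgood : ∀ t, Fintype.card Wt ≤ 2 * Gm * (good t).card := fun t => by
    refine (hM.good (tm t) (l t) (badW M X (R t) (κ t)) ?_).trans ?_
    · exact (Nat.mul_le_mul_left _ (card_badW hM X _ _)).trans hr
    · exact Nat.mul_le_mul_right _ (Nat.mul_le_mul_left _ (hG t))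
  let Arg := (Fin s × Lv × Cell) × (Reg × Cell × Wt → Option Sy)
  let pts : (Fin s → Wt) → Fin s × Fin k → Arg := fun ω b =>
    ((b.1, l b.1, κ b.1), M.lab (keyS M τ R tm ω (b.1, l b.1, κ b.1)) (x b.2))
  let mt : (Fin s → Wt) → Finset (Arg → Fin k) := fun ω =>
    univ.filter fun ψ => ∀ b, ψ (pts ω b) = tg b.1 b.2
  have hmt : ∀ ω ∈ Fintype.piFinset good,
      Fintype.card (Arg → Fin k) ≤ k ^ (s * k) * (mt ω).card := by
    intro ω hω
    have := match_count k (pts ω) (fun b => tg b.1 b.2) (by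
      rintro ⟨t, a⟩ ⟨t', b⟩ hb
      have h1 : t = t' := congrArg (fun z : Arg => z.1.1) hb
      subst h1
      have h2 := (M.lab_eq_iff _ _ _).1 (congrArg (fun z : Arg => z.2) hb)
      exact htg t a b (h.pre_of_agree hM ω t
        (Finset.mem_filter.1 (Fintype.mem_piFinset.1 hω t)).2 (hx a) (hx b) h2))
    rw [Fintype.card_prod, Fintype.card_fin, Fintype.card_fin] at this
    convert this
  have hsub : ((Fintype.piFinset good).sigma mt).card ≤
      (univ.filter fun v : Srv s k Reg Cell Lv Tm Wt Sy =>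
        Sat M τ v (((R, tm), l, κ, tg), fun a => M.lab (dataS M τ R l κ) (x a))).card := by
    refine Finset.card_le_card_of_injOn (fun z => ((R, tm), z.1, z.2)) ?_ ?_
    · rintro ⟨ω, ψ⟩ hz
      obtain ⟨h1, h2⟩ := Finset.mem_sigma.1 (Finset.mem_coe.1 hz)
      refine Finset.mem_coe.2 (Finset.mem_filter.2 ⟨mem_univ _, rfl, fun t => ?_, fun b => ?_⟩)
      · exact (Finset.mem_filter.1 (Fintype.mem_piFinset.1 h1 t)).1
      · simp only
        rw [proj_lab M (h.key_sub ω b.1)]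
        exact (Finset.mem_filter.1 h2).2 b
    · rintro ⟨ω, ψ⟩ - ⟨ω', ψ'⟩ - hz
      simp only [Prod.mk.injEq, true_and] at hz
      obtain ⟨rfl, rfl⟩ := hz
      rfl
  rw [Finset.card_sigma] at hsub
  have h1 : (Fintype.piFinset good).card * Fintype.card (Arg → Fin k) ≤
      k ^ (s * k) * ∑ ω ∈ Fintype.piFinset good, (mt ω).card := by
    rw [Finset.mul_sum, ← smul_eq_mul, ← Finset.sum_const]
    exact Finset.sum_le_sum hmt
  have h2 : Fintype.card Wt ^ s ≤ (2 * Gm) ^ s * (Fintype.piFinset good).card := by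
    rw [Fintype.card_piFinset]
    have : ∏ _t : Fin s, Fintype.card Wt ≤ ∏ t : Fin s, (2 * Gm * (good t).card) :=
      Finset.prod_le_prod' fun t _ => hgood t
    rw [Finset.prod_mul_distrib] at this
    simpa using this
  have h3 : Fintype.card (Srv s k Reg Cell Lv Tm Wt Sy) = Fintype.card Reg ^ s *
      Fintype.card Tm ^ s * (Fintype.card Wt ^ s * Fintype.card (Arg → Fin k)) := by
    rw [Fintype.card_prod, Fintype.card_prod, Fintype.card_prod]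
    simp only [Fintype.card_pi_const]
    rfl
  rw [h3]
  calc _ ≤ Fintype.card Reg ^ s * Fintype.card Tm ^ s * ((2 * Gm) ^ s *
        ((Fintype.piFinset good).card * Fintype.card (Arg → Fin k))) := by
        rw [← mul_assoc ((2 * Gm) ^ s)]
        exact Nat.mul_le_mul_left _ (Nat.mul_le_mul_right _ h2)
    _ ≤ Fintype.card Reg ^ s * Fintype.card Tm ^ s * ((2 * Gm) ^ s * (k ^ (s * k) * _)) :=
        Nat.mul_le_mul_left _ (Nat.mul_le_mul_left _ (h1.trans (Nat.mul_le_mul_left _ hsub)))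
    _ = _ := by ring

end Pool.Agent.Lib.MP_157e4e_co.Full
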