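import Mathlib
import Pool.Agent.Lib.MP_157e4e_co.FCover2

set_option autoImplicit false

namespace Pool.Agent.Lib.MP_157e4e_co.Full

open Finset

variable {N : ℕ} {Reg Cell Lv Tm Wt Cn Sy : Type}
  [DecidableEq Reg] [DecidableEq Cell] [LinearOrder Lv] [LinearOrder Cell]
  [Fintype Wt] [DecidableEq Wt] [DecidableEq Sy] [Fintype Cell] [Fintype Lv]

theorem Succ.restr_eq {M : Sys N Reg Cell Lv Tm Wt Cn Sy} {G : Tm → ℕ} {r : ℕ}
    (hM : M.Ok G r) {X : Finset (Fin N)} {s k : ℕ} {τ : Tm}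
    {R : Fin s → Reg} {tm : Fin s → Tm} {l : Fin s → Lv} {κ : Fin s → Cell}
    (h : Succ M X τ R tm l κ) (x : Fin k → Fin N) (hsurj : ∀ y ∈ X, ∃ a, x a = y)
    (o : Fin N → ℤ) (ho : Cvx (Pre M R) s X o) (tg : Fin s → Fin k → Fin k)
    (htg : ∀ t a, (tg t a).val = below (Pre M R (t.val + 1)) X o (x a))
    (v : Srv s k Reg Cell Lv Tm Wt Sy)
    (hv : Sat M τ v (((R, tm), l, κ, tg), fun a => M.lab (dataS M τ R l κ) (x a))) :
    restr (permS M τ v) X = relOf o X := by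
  obtain ⟨⟨R', tm'⟩, ω, ψ⟩ := v
  obtain ⟨h1, h2, h3⟩ := hv
  simp only [Prod.mk.injEq] at h1 h2 h3
  obtain ⟨rfl, rfl⟩ := h1
  have key : ∀ y ∈ X, ∀ z ∈ X, o y < o z →
      permS M τ ((R', tm'), ω, ψ) y < permS M τ ((R', tm'), ω, ψ) z := by
    intro y hy z hz hlt
    have hne : y ≠ z := fun he => by rw [he] at hlt; exact lt_irrefl _ hlt
    obtain ⟨t0, ht0⟩ := h.sep y hy z hz hne
    obtain ⟨t, ht1, ht2⟩ := exists_first (f := fun t => M.f (R' t) y) (g := fun t => M.f (R' t) z)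
      fun he => ht0 (congrFun he t0)
    refine permS_lt M τ _ (t, l t, κ t) y z
      (fun q hq => h.agree_before hM ω t (h2 t) hy hz ht1 q hq) ?_
    obtain ⟨a, rfl⟩ := hsurj y hy
    obtain ⟨b, rfl⟩ := hsurj z hz
    have e1 := h3 (t, a)
    have e2 := h3 (t, b)
    simp only at e1 e2 ⊢
    rw [proj_lab M (h.key_sub ω t)] at e1 e2
    rw [e1, e2, Fin.lt_def, htg, htg]
    exact below_strict (pre_equiv M R') ho (show t.val + 1 ≤ s from t.isLt) hy hz
      (fun hp => ht2 (hp t (by omega))) hlt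
  ext ⟨y, z⟩
  simp only [restr, relOf, Finset.mem_filter, Finset.mem_product]
  refine and_congr_right fun hyz => ⟨fun hlt => ?_, key y hyz.1 z hyz.2⟩
  rcases lt_trichotomy (o y) (o z) with h4 | h4 | h4
  · exact h4
  · rw [ho.1 y hyz.1 z hyz.2 h4] at hlt
    exact absurd hlt (lt_irrefl _)
  · exact absurd hlt (lt_asymm (key z hyz.2 y hyz.1 h4))

variable [Fintype Reg] [Fintype Tm] [DecidableEq Tm] [Fintype Sy]

theorem cover {M : Sys N Reg Cell Lv Tm Wt Cn Sy} {G : Tm → ℕ} {r : ℕ} (hM : M.Ok G r)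
    [Nonempty Reg] [Nonempty Wt] (s k : ℕ) (hk : 0 < k) (τ : Tm) (Gm : ℕ) (hGm : 0 < Gm)
    (hr : 2 * (k * k * r) ≤ Fintype.card Wt) (Nb : ℕ)
    (hNb : ∀ (R : Fin s → Reg) l κ, (univ.image (M.lab (dataS M τ R l κ))).card ≤ Nb) (e : ℕ)
    (he : Fintype.card (Stru s k Reg Cell Lv Tm) * Nb ^ k < 2 ^ e) :
    ∃ H : Finset (Equiv.Perm (Fin N)),
      H.card ≤ (Fintype.card Reg ^ s * Fintype.card Tm ^ s * (2 * Gm) ^ s * k ^ (s * k)) * e ∧
      ∀ X : Finset (Fin N), X.card = k → ∀ (R : Fin s → Reg) tm l κ, Succ M X τ R tm l κ →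
        (∀ t, G (tm t) ≤ Gm) → Shatters H (2 ^ (k - 1)) X := by
  classical
  have : Nonempty (Fin k) := ⟨⟨0, hk⟩⟩
  have : Nonempty Tm := ⟨τ⟩
  let Rr := Fintype.card Reg ^ s * Fintype.card Tm ^ s * (2 * Gm) ^ s * k ^ (s * k)
  have hRr : 0 < Rr := by
    have h1 : 0 < Fintype.card Reg := Fintype.card_pos
    have h2 : 0 < Fintype.card Tm := Fintype.card_pos
    positivity
  let 𝒞 : Finset (Stru s k Reg Cell Lv Tm × (Fin k → Reg × Cell × Wt → Option Sy)) :=
    univ.filter fun c =>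
      (∀ a, c.2 a ∈ univ.image (M.lab (dataS M τ c.1.1.1 c.1.2.1 c.1.2.2.1))) ∧
      Fintype.card (Srv s k Reg Cell Lv Tm Wt Sy) ≤
        Rr * (univ.filter fun v : Srv s k Reg Cell Lv Tm Wt Sy => Sat M τ v c).card
  have hc : 𝒞.card ≤ Nb ^ k * Fintype.card (Stru s k Reg Cell Lv Tm) := by
    refine Finset.card_le_mul_card_image_of_maps_to (f := Prod.fst) (t := univ)
      (fun _ _ => mem_univ _) _ fun b _ => ?_
    refine (Finset.card_le_card_of_injOn (t := Fintype.piFinset fun _ : Fin k =>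
      univ.image (M.lab (dataS M τ b.1.1 b.2.1 b.2.2.1))) Prod.snd ?_ ?_).trans ?_
    · intro c hc
      obtain ⟨h1, h2⟩ := Finset.mem_filter.1 (Finset.mem_coe.1 hc)
      subst h2
      exact Finset.mem_coe.2 (Fintype.mem_piFinset.2 (Finset.mem_filter.1 h1).2.1)
    · intro c hc c' hc' h1
      exact Prod.ext ((Finset.mem_filter.1 (Finset.mem_coe.1 hc)).2.trans
        (Finset.mem_filter.1 (Finset.mem_coe.1 hc')).2.symm) h1
    · rw [Fintype.card_piFinset, Finset.prod_const, Finset.card_univ, Fintype.card_fin]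
      exact Nat.pow_le_pow_left (hNb _ _ _) _
  obtain ⟨H, hH, hcov⟩ := greedy_cover (fun v c => Sat M τ v c) Rr hRr 𝒞
    (fun c hc => (Finset.mem_filter.1 hc).2.2) e (hc.trans_lt (by rwa [Nat.mul_comm]))
  refine ⟨H.image (permS M τ), Finset.card_image_le.trans hH, ?_⟩
  intro X hX R tm l κ h hG
  have h1 := card_cvxRels (s := s) (pre_equiv M R)
    (fun i j a b hij hj t ht => hj t (lt_of_lt_of_le ht hij)) (fun a b t ht => absurd ht (by omega)) X
  rw [hX] at h1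
  refine h1.trans (Finset.card_le_card fun q hq => ?_)
  obtain ⟨o, ho, rfl⟩ := mem_cvxRels.1 hq
  let x : Fin k → Fin N := X.orderEmbOfFin hX
  have hx : ∀ a, x a ∈ X := fun a => X.orderEmbOfFin_mem hX a
  have hsurj : ∀ y ∈ X, ∃ a, x a = y := fun y hy => by
    have : y ∈ Set.range (X.orderEmbOfFin hX) := by
      rw [Finset.range_orderEmbOfFin]
      exact hy
    exact this
  let tg : Fin s → Fin k → Fin k := fun t a =>
    ⟨below (Pre M R (t.val + 1)) X o (x a), hX ▸ below_lt (pre_equiv M R _) o (hx a)⟩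
  have hfrac := h.frac hM (by rw [hX]; exact hr) Gm hG x hx tg
    fun t a b hab => Fin.ext (below_congr (pre_equiv M R _) X o hab)
  obtain ⟨v, hv1, hv2⟩ := hcov (((R, tm), l, κ, tg), fun a => M.lab (dataS M τ R l κ) (x a))
    (Finset.mem_filter.2 ⟨mem_univ _, fun a => Finset.mem_image_of_mem _ (mem_univ _), by
      convert hfrac⟩)
  exact Finset.mem_image.2 ⟨permS M τ v, Finset.mem_image_of_mem _ hv1,
    h.restr_eq hM x hsurj o ho tg (fun _ _ => rfl) v hv2⟩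

end Pool.Agent.Lib.MP_157e4e_co.Full
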