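import Mathlib

set_option autoImplicit false

namespace Pool.Agent.Lib.MP_157e4e_co.Full

open Finset

variable {ρ π : Type} [DecidableEq ρ]

/-- `c` is maximal in `S` for strict inclusion of the sets `sep`. -/
def MaxIn (sep : ρ → Finset π) (S : Finset ρ) (c : ρ) : Prop :=
  c ∈ S ∧ ∀ b ∈ S, ¬ sep c ⊂ sep b

omit [DecidableEq ρ] in
theorem exists_maxIn_ge [DecidableEq π] (sep : ρ → Finset π) (S : Finset ρ) {b : ρ} (hb : b ∈ S) :
    ∃ c, MaxIn sep S c ∧ sep b ⊆ sep c := by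
  obtain ⟨c, hc, hmax⟩ := Finset.exists_max_image (S.filter fun c => sep b ⊆ sep c)
    (fun c => (sep c).card) ⟨b, Finset.mem_filter.2 ⟨hb, subset_rfl⟩⟩
  obtain ⟨hc1, hc2⟩ := Finset.mem_filter.1 hc
  refine ⟨c, ⟨hc1, fun b' hb' h => ?_⟩, hc2⟩
  have h1 := hmax b' (Finset.mem_filter.2 ⟨hb', hc2.trans h.subset⟩)
  have h2 := Finset.card_lt_card h
  omega

/-- A good ordering of the regions of `S`. -/
def GoodPos (sep : ρ → Finset π) (Kn : ρ → ρ → Prop) (S : Finset ρ) (pos : ρ → ℕ) : Prop :=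
  (∀ a ∈ S, ∀ b ∈ S, pos a = pos b → a = b) ∧ (∀ a ∈ S, pos a < S.card) ∧
  (∀ b ∈ S, ∀ c ∈ S, sep b ⊂ sep c → pos b < pos c) ∧
  ∀ c ∈ S, ∀ b ∈ S, pos b < pos c →
    sep b ⊆ sep c ∨ ∃ b' ∈ S, pos b' < pos c ∧ sep b ⊆ sep b' ∧ Kn c b'

theorem exists_goodPos [DecidableEq π] (sep : ρ → Finset π) (Kn : ρ → ρ → Prop) (S : Finset ρ)
    (h : ∀ S' ⊆ S, S'.Nonempty →
      ∃ c, MaxIn sep S' c ∧ ∀ b, MaxIn sep S' b → b ≠ c → Kn c b) :
    ∃ pos, GoodPos sep Kn S pos := by
  induction S using Finset.strongInduction with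
  | H S ih =>
  rcases S.eq_empty_or_nonempty with rfl | hne
  · exact ⟨fun _ => 0, by simp [GoodPos]⟩
  obtain ⟨c, hc, hK⟩ := h S subset_rfl hne
  obtain ⟨pos, h1, h2, h3, h4⟩ := ih (S.erase c) (Finset.erase_ssubset hc.1)
    fun S' hS' => h S' (hS'.trans (Finset.erase_subset _ _))
  have hcard : (S.erase c).card + 1 = S.card := Finset.card_erase_add_one hc.1
  let pos' : ρ → ℕ := fun a => if a = c then (S.erase c).card else pos a
  have pc : pos' c = (S.erase c).card := by simp [pos']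
  have pa : ∀ a, a ≠ c → pos' a = pos a := fun a ha => by simp [pos', ha]
  have me : ∀ a ∈ S, a ≠ c → a ∈ S.erase c := fun a ha h => Finset.mem_erase.2 ⟨h, ha⟩
  refine ⟨pos', ?_, ?_, ?_, ?_⟩
  · intro a ha b hb hab
    by_cases h5 : a = c <;> by_cases h6 : b = c
    · rw [h5, h6]
    · rw [h5, pc, pa b h6] at hab
      have := h2 b (me b hb h6)
      omega
    · rw [h6, pc, pa a h5] at hab
      have := h2 a (me a ha h5)
      omega
    · rw [pa a h5, pa b h6] at hab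
      exact h1 a (me a ha h5) b (me b hb h6) hab
  · intro a ha
    by_cases h5 : a = c
    · rw [h5, pc]; omega
    · rw [pa a h5]
      have := h2 a (me a ha h5)
      omega
  · intro b hb a ha hab
    have h5 : b ≠ c := fun he => hc.2 a ha (he ▸ hab)
    rw [pa b h5]
    by_cases h6 : a = c
    · rw [h6, pc]; exact h2 b (me b hb h5)
    · rw [pa a h6]; exact h3 b (me b hb h5) a (me a ha h6) hab
  · intro a ha b hb hab
    by_cases h6 : a = c
    · obtain ⟨b', hb', hsub⟩ := exists_maxIn_ge sep S hb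
      by_cases h7 : b' = c
      · left; rw [h6, ← h7]; exact hsub
      · right
        refine ⟨b', hb'.1, ?_, hsub, h6 ▸ hK b' hb' h7⟩
        rw [h6, pc, pa b' h7]
        exact h2 b' (me b' hb'.1 h7)
    · have h5 : b ≠ c := by
        intro he
        rw [he, pc, pa a h6] at hab
        have := h2 a (me a ha h6)
        omega
      rw [pa a h6, pa b h5] at hab
      rcases h4 a (me a ha h6) b (me b hb h5) hab with h7 | ⟨b', hb', h7, h8, h9⟩
      · exact Or.inl h7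
      · refine Or.inr ⟨b', Finset.mem_of_mem_erase hb', ?_, h8, h9⟩
        rw [pa a h6, pa b' (Finset.ne_of_mem_erase hb')]
        exact h7

/-- The invariant of the knowledge process at time `τ`. -/
def Inv (Coll : ℕ → Finset ρ → ρ → Prop) (S : Finset ρ) (τ : ℕ) (tm : ρ → ℕ)
    (A : ρ → Finset ρ) : Prop :=
  ∀ c ∈ S, tm c < τ ∧ c ∉ A c ∧ A c ⊆ S ∧ (A c = ∅ ∨ Coll (tm c) (A c) c)

theorem process_step [DecidableEq π] (sep : ρ → Finset π) (Ful Coll : ℕ → Finset ρ → ρ → Prop)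
    (S : Finset ρ) (τ : ℕ) (hst : ∀ A, ∀ b ∈ S, Ful τ A b ∨ Coll τ A b) (tm : ρ → ℕ)
    (A : ρ → Finset ρ) (hI : Inv Coll S τ tm A) :
    (∃ pos, GoodPos sep (fun c b => b ∈ A c ∨ Ful τ (insert c (A c)) b) S pos) ∨
      ∃ tm' A', Inv Coll S (τ + 1) tm' A' ∧ ∑ c ∈ S, (A c).card < ∑ c ∈ S, (A' c).card := by
  classical
  by_cases h : ∀ S' ⊆ S, S'.Nonempty → ∃ c, MaxIn sep S' c ∧
      ∀ b, MaxIn sep S' b → b ≠ c → (b ∈ A c ∨ Ful τ (insert c (A c)) b)
  · exact Or.inl (exists_goodPos sep _ S h)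
  right
  push Not at h
  obtain ⟨S', hS', ⟨z, hz⟩, hbad⟩ := h
  obtain ⟨z', hz', -⟩ := exists_maxIn_ge sep S' hz
  obtain ⟨c, hc, hmax⟩ := Finset.exists_max_image (S'.filter fun c => MaxIn sep S' c)
    (fun c => (A c).card) ⟨z', Finset.mem_filter.2 ⟨hz'.1, hz'⟩⟩
  have hc' := (Finset.mem_filter.1 hc).2
  obtain ⟨b, hb, hbc, hbA, hbF⟩ := hbad c hc'
  have hbS : b ∈ S := hS' hb.1
  have hcS : c ∈ S := hS' hc'.1
  have hcoll : Coll τ (insert c (A c)) b := (hst _ b hbS).resolve_left hbF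
  have hle := hmax b (Finset.mem_filter.2 ⟨hb.1, hb⟩)
  refine ⟨Function.update tm b τ, Function.update A b (insert c (A c)), ?_, ?_⟩
  · intro a ha
    by_cases hab : a = b
    · subst hab
      simp only [Function.update_self]
      refine ⟨by omega, ?_, ?_, Or.inr hcoll⟩
      · rw [Finset.mem_insert]
        rintro (h1 | h1)
        · exact hbc h1
        · exact hbA h1
      · exact Finset.insert_subset hcS (hI c hcS).2.2.1
    · simp only [Function.update_of_ne hab]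
      obtain ⟨h1, h2, h3, h4⟩ := hI a ha
      exact ⟨by omega, h2, h3, h4⟩
  · refine Finset.sum_lt_sum (fun a _ => ?_) ⟨b, hbS, ?_⟩
    · by_cases hab : a = b
      · subst hab
        rw [Function.update_self, Finset.card_insert_of_notMem (hI c hcS).2.1]
        omega
      · rw [Function.update_of_ne hab]
    · rw [Function.update_self, Finset.card_insert_of_notMem (hI c hcS).2.1]
      omega

theorem process [DecidableEq π] (sep : ρ → Finset π) (Ful Coll : ℕ → Finset ρ → ρ → Prop)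
    (S : Finset ρ) (T : ℕ) (hT : S.card * S.card < T)
    (hst : ∀ τ ≤ T, ∀ A, ∀ b ∈ S, Ful τ A b ∨ Coll τ A b) :
    ∃ τ, τ < T ∧ ∃ tm A, Inv Coll S (τ + 1) tm A ∧
      ∃ pos, GoodPos sep (fun c b => b ∈ A c ∨ Ful (τ + 1) (insert c (A c)) b) S pos := by
  by_contra hcon
  have key : ∀ τ ≤ T, ∃ tm A, Inv Coll S (τ + 1) tm A ∧ τ ≤ ∑ c ∈ S, (A c).card := by
    intro τ
    induction τ with
    | zero => exact fun _ => ⟨fun _ => 0, fun _ => ∅, fun c _ => by simp, Nat.zero_le _⟩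
    | succ τ ih =>
      intro hτ
      obtain ⟨tm, A, hI, hle⟩ := ih (by omega)
      rcases process_step sep Ful Coll S (τ + 1) (hst _ hτ) tm A hI with h | ⟨tm', A', h1, h2⟩
      · exact absurd ⟨τ, by omega, tm, A, hI, h⟩ hcon
      · exact ⟨tm', A', h1, by omega⟩
  obtain ⟨tm, A, hI, hle⟩ := key T le_rfl
  have : ∑ c ∈ S, (A c).card ≤ ∑ _c ∈ S, S.card :=
    Finset.sum_le_sum fun c hc => Finset.card_le_card (hI c hc).2.2.1
  rw [Finset.sum_const, smul_eq_mul] at this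
  omega

end Pool.Agent.Lib.MP_157e4e_co.Full
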