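import Mathlib
import Pool.Agent.Lib.MP_157e4e_co.FOrd
import Pool.Agent.Lib.MP_157e4e_co.FCover2

set_option autoImplicit false

namespace Pool.Agent.Lib.MP_157e4e_co.Full

open Finset

open Classical in
/-- The pairs of points of `X` that `g` separates. -/
noncomputable def sepOf {N : ℕ} {β : Type} (X : Finset (Fin N)) (g : Fin N → β) :
    Finset (Fin N × Fin N) := (X ×ˢ X).filter fun p => g p.1 ≠ g p.2

theorem mem_sepOf {N : ℕ} {β : Type} {X : Finset (Fin N)} {g : Fin N → β} {x y : Fin N}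
    (hx : x ∈ X) (hy : y ∈ X) : (x, y) ∈ sepOf X g ↔ g x ≠ g y := by
  simp [sepOf, hx, hy]

theorem sepOf_sub {N : ℕ} {β : Type} (X : Finset (Fin N)) (g : Fin N → β) :
    sepOf X g ⊆ X ×ˢ X := by
  classical
  unfold sepOf
  exact Finset.filter_subset _ _

theorem sepOf_mono {N : ℕ} {β γ : Type} (X : Finset (Fin N)) {g : Fin N → β} {g' : Fin N → γ}
    (h : ∀ x y, g' x = g' y → g x = g y) : sepOf X g ⊆ sepOf X g' := by
  rintro ⟨x, y⟩ hp
  simp only [sepOf, Finset.mem_filter] at hp ⊢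
  exact ⟨hp.1, fun he => hp.2 (h x y he)⟩

theorem sepOf_congr {N : ℕ} {β γ : Type} (X : Finset (Fin N)) {g : Fin N → β} {g' : Fin N → γ}
    (h : ∀ x y, g' x = g' y ↔ g x = g y) : sepOf X g' = sepOf X g :=
  Finset.Subset.antisymm (sepOf_mono X fun x y => (h x y).2) (sepOf_mono X fun x y => (h x y).1)

open Classical in
/-- The pairs separated by `ρ` and by no strictly coarser region. -/
noncomputable def rel {Reg π : Type} (sep : Reg → Finset π) (ℛ : Finset Reg) (ρ : Reg) :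
    Finset π := (sep ρ).filter fun p => ∀ ρ' ∈ ℛ, sep ρ' ⊂ sep ρ → p ∉ sep ρ'

theorem mem_rel {Reg π : Type} {sep : Reg → Finset π} {ℛ : Finset Reg} {ρ : Reg} {p : π} :
    p ∈ rel sep ℛ ρ ↔ p ∈ sep ρ ∧ ∀ ρ' ∈ ℛ, sep ρ' ⊂ sep ρ → p ∉ sep ρ' := by
  classical
  unfold rel
  rw [Finset.mem_filter]

theorem exists_rel {Reg π : Type} (sep : Reg → Finset π) (ℛ : Finset Reg) {ρ : Reg} {p : π}
    (hρ : ρ ∈ ℛ) (hp : p ∈ sep ρ) : ∃ ρ' ∈ ℛ, sep ρ' ⊆ sep ρ ∧ p ∈ rel sep ℛ ρ' := by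
  classical
  obtain ⟨a, ha, hmin⟩ := Finset.exists_min_image (ℛ.filter fun a => sep a ⊆ sep ρ ∧ p ∈ sep a)
    (fun a => (sep a).card) ⟨ρ, Finset.mem_filter.2 ⟨hρ, subset_rfl, hp⟩⟩
  obtain ⟨h1, h2, h3⟩ := Finset.mem_filter.1 ha
  refine ⟨a, h1, h2, mem_rel.2 ⟨h3, fun b hb hba hpb => ?_⟩⟩
  have h4 := hmin b (Finset.mem_filter.2 ⟨hb, hba.subset.trans h2, hpb⟩)
  have h5 := Finset.card_lt_card hba
  omega

theorem exists_enum {Reg : Type} (S : Finset Reg) (hS : S.Nonempty) (pos : Reg → ℕ)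
    (h1 : ∀ a ∈ S, ∀ b ∈ S, pos a = pos b → a = b) (h2 : ∀ a ∈ S, pos a < S.card) (s : ℕ)
    (hs : S.card ≤ s) : ∃ R : Fin s → Reg, (∀ t, R t ∈ S) ∧
      (∀ t t', t' < t → R t' = R t ∨ pos (R t') < pos (R t)) ∧
      (∀ t, ∀ b ∈ S, pos b < pos (R t) → ∃ t' < t, R t' = b) ∧ ∀ b ∈ S, ∃ t, R t = b := by
  classical
  have hc := hS.card_pos
  have himg : S.image pos = Finset.range S.card := by
    refine Finset.eq_of_subset_of_card_le (fun i hi => ?_) ?_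
    · obtain ⟨a, ha, rfl⟩ := Finset.mem_image.1 hi
      exact Finset.mem_range.2 (h2 a ha)
    · rw [Finset.card_range, Finset.card_image_of_injOn fun a ha b hb h => h1 a ha b hb h]
  have hex : ∀ t : Fin s, ∃ a ∈ S, pos a = min t.val (S.card - 1) := fun t => by
    have : min t.val (S.card - 1) ∈ S.image pos := by
      rw [himg, Finset.mem_range]
      omega
    exact Finset.mem_image.1 this
  choose R hR hp using hex
  have hb : ∀ b ∈ S, ∃ t : Fin s, t.val = pos b ∧ R t = b := fun b hb => by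
    have h3 := h2 b hb
    refine ⟨⟨pos b, by omega⟩, rfl, h1 _ (hR _) b hb ?_⟩
    rw [hp]
    simp only
    omega
  refine ⟨R, hR, fun t t' h => ?_, fun t b hb' h => ?_, fun b hb' => ?_⟩
  · have h3 := Fin.lt_def.1 h
    by_cases h4 : pos (R t') = pos (R t)
    · exact Or.inl (h1 _ (hR _) _ (hR _) h4)
    · right
      rw [hp, hp] at h4 ⊢
      omega
  · obtain ⟨t', h3, h4⟩ := hb b hb'
    refine ⟨t', Fin.lt_def.2 ?_, h4⟩
    rw [hp] at h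
    omega
  · obtain ⟨t', -, h4⟩ := hb b hb'
    exact ⟨t', h4⟩

variable {N : ℕ} {Reg Cell Lv Tm Wt Cn Sy : Type}
  [DecidableEq Reg] [DecidableEq Cell] [LinearOrder Lv] [LinearOrder Cell] [Fintype Cell]

/-- A derived region separates everything or nothing that is new. -/
def Stab {Reg π : Type} (sep : Reg → Finset π) (ℛ : Finset Reg) (ρ : Reg) (D : Finset π) : Prop :=
  D = sep ρ ∨ ∀ p ∈ rel sep ℛ ρ, p ∉ D

theorem scale (M : Sys N Reg Cell Lv Tm Wt Cn Sy) (X : Finset (Fin N)) (ℛ : Finset Reg)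
    (s T : ℕ) (hs : ℛ.card ≤ s) (hT : s * s < T) (tt : ℕ → Tm) (l0 : Lv) (hl0 : ∀ l, l0 ≤ l)
    (hd0 : M.dec l0 = ∅) (hde : ∀ J, M.dec (M.enc J) = J) (hX : 2 ≤ X.card)
    (hinj : ∃ ρ ∈ ℛ, ∀ x ∈ X, ∀ y ∈ X, x ≠ y → M.f ρ x ≠ M.f ρ y)
    (hcell : ∀ ρ ∈ ℛ, ∀ c, Stab (fun ρ => sepOf X (M.f ρ)) ℛ ρ (sepOf X fun x => M.f ρ x c))
    (hhash : ∀ ρ ∈ ℛ, ∀ τ l,
      Stab (fun ρ => sepOf X (M.f ρ)) ℛ ρ (sepOf X (M.lab (M.hashS τ l ρ)))) :
    ∃ τ < T, ∃ (R : Fin s → Reg) (tm : Fin s → ℕ) (l : Fin s → Lv) (κ : Fin s → Cell),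
      Succ M X (tt (τ + 1)) R (fun t => tt (tm t)) l κ ∧ ∀ t, tm t ≤ τ := by
  classical
  let sep : Reg → Finset (Fin N × Fin N) := fun ρ => sepOf X (M.f ρ)
  let S : Finset Reg := ℛ.filter fun ρ => (rel sep ℛ ρ).Nonempty
  have hSs : S.card ≤ s := (Finset.card_filter_le _ _).trans hs
  have hact : ∀ ρ ∈ ℛ, ∀ p ∈ sep ρ, ∃ ρ' ∈ S, sep ρ' ⊆ sep ρ ∧ p ∈ sep ρ' := fun ρ hρ p hp => by
    obtain ⟨ρ', h1, h2, h3⟩ := exists_rel sep ℛ hρ hp
    exact ⟨ρ', Finset.mem_filter.2 ⟨h1, p, h3⟩, h2, (mem_rel.1 h3).1⟩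
  have hsep : ∀ x ∈ X, ∀ y ∈ X, x ≠ y → ∃ ρ ∈ S, (x, y) ∈ sep ρ := fun x hx y hy hne => by
    obtain ⟨ρ, hρ, h⟩ := hinj
    obtain ⟨ρ', h1, -, h2⟩ := hact ρ hρ (x, y) ((mem_sepOf hx hy).2 (h x hx y hy hne))
    exact ⟨ρ', h1, h2⟩
  have hSne : S.Nonempty := by
    obtain ⟨x, hx, y, hy, hne⟩ := Finset.one_lt_card.1 hX
    obtain ⟨ρ, h, -⟩ := hsep x hx y hy hne
    exact ⟨ρ, h⟩
  have hκ0 : ∀ ρ ∈ S, ∃ c, (sepOf X fun x => M.f ρ x c) = sep ρ ∧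
      ∀ c' < c, ∀ p ∈ rel sep ℛ ρ, p ∉ sepOf X fun x => M.f ρ x c' := fun ρ hρ => by
    obtain ⟨h1, ⟨x, y⟩, h2⟩ := Finset.mem_filter.1 hρ
    have h3 := (mem_rel.1 h2).1
    obtain ⟨hx, hy⟩ := Finset.mem_product.1 (sepOf_sub _ _ h3)
    obtain ⟨c0, hc0⟩ := Function.ne_iff.1 ((mem_sepOf hx hy).1 h3)
    obtain ⟨c, hc, hmin⟩ := Finset.exists_min_image
      (univ.filter fun c => (sepOf X fun x => M.f ρ x c) = sep ρ) id
      ⟨c0, Finset.mem_filter.2 ⟨mem_univ _, (hcell ρ h1 c0).resolve_right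
        fun h => h _ h2 ((mem_sepOf hx hy).2 hc0)⟩⟩
    refine ⟨c, (Finset.mem_filter.1 hc).2, fun c' hc' => (hcell ρ h1 c').resolve_left fun h => ?_⟩
    exact absurd (hmin c' (Finset.mem_filter.2 ⟨mem_univ _, h⟩)) (not_le.2 hc')
  have hCell : Nonempty Cell := by
    obtain ⟨ρ, h⟩ := hSne
    exact ⟨(hκ0 ρ h).choose⟩
  choose! κ hκ1 hκ2 using hκ0
  let know : Finset Reg → Finset (Reg × Cell) := fun A => A.image fun a => (a, κ a)
  let hs' : ℕ → Finset Reg → Reg → Finset (Fin N × Fin N) := fun τ A b =>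
    sepOf X (M.lab (M.hashS (tt τ) (M.enc (know A)) b))
  obtain ⟨τ, hτ, tm, A, hI, pos, p1, p2, p3, p4⟩ := process sep (fun τ A b => hs' τ A b = sep b)
    (fun τ A b => ∀ p ∈ rel sep ℛ b, p ∉ hs' τ A b) S T
    ((Nat.mul_le_mul hSs hSs).trans_lt hT)
    fun τ _ A b hb => hhash b (Finset.mem_filter.1 hb).1 _ _
  obtain ⟨R, r1, r2, r3, r4⟩ := exists_enum S hSne pos p1 p2 s hSs
  let l : Reg → Lv := fun c => if A c = ∅ then l0 else M.enc (know (A c))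
  have hl : ∀ c, M.dec (l c) = know (A c) := fun c => by
    by_cases h : A c = ∅
    · simp [l, know, h, hd0]
    · simp [l, h, hde]
  refine ⟨τ, hτ, R, fun t => tm (R t), fun t => l (R t), fun t => κ (R t), ⟨?_, ?_, ?_, ?_, ?_⟩,
    fun t => Nat.lt_succ_iff.1 (hI _ (r1 t)).1⟩
  · intro t t' c h
    rw [hl] at h
    obtain ⟨a, -, ha⟩ := Finset.mem_image.1 h
    obtain ⟨rfl, rfl⟩ := Prod.mk.inj ha
    rfl
  · intro t x hx y hy hpre
    by_cases hxy : M.f (R t) x = M.f (R t) y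
    · refine ⟨fun _ _ i hi => ?_, fun c _ => congrFun hxy c⟩
      have hi' : i.1 = R t := hi.1
      simp only [Sys.sym, hi', hxy]
    have hrel : (x, y) ∈ rel sep ℛ (R t) := by
      refine mem_rel.2 ⟨(mem_sepOf hx hy).2 hxy, fun b hb hsub hp => ?_⟩
      obtain ⟨b', h1, h2, h3⟩ := hact b hb _ hp
      obtain ⟨t', h4, rfl⟩ := r3 t b' h1 (p3 b' h1 _ (r1 t) (h2.trans_ssubset hsub))
      exact (mem_sepOf hx hy).1 h3 (hpre t' h4)
    refine ⟨fun l' hl' => ?_, fun c hc => ?_⟩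
    · have hA : A (R t) ≠ ∅ := fun h => by
        simp only [l, h, if_true] at hl'
        exact absurd (hl0 l') (not_le.2 hl')
      have h1 := (hI _ (r1 t)).2.2.2.resolve_left hA _ hrel
      rw [mem_sepOf hx hy, not_not, M.lab_eq_iff] at h1
      simpa only [l, hA, if_false] using h1
    · have h1 := hκ2 _ (r1 t) c hc _ hrel
      rwa [mem_sepOf hx hy, not_not] at h1
  · intro t x hx y hy hne
    have h1 : (x, y) ∈ sep (R t) := (mem_sepOf hx hy).2 hne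
    rw [← hκ1 _ (r1 t)] at h1
    exact (mem_sepOf hx hy).1 h1
  · intro t t' ht x hx y hy hne
    have h1 : (x, y) ∈ sep (R t') := (mem_sepOf hx hy).2 hne
    rcases r2 t t' ht with h2 | h2
    · exact Or.inl (h2 ▸ hne)
    rcases p4 _ (r1 t) _ (r1 t') h2 with h3 | ⟨b, hb, h3, h4, h5⟩
    · exact Or.inl ((mem_sepOf hx hy).1 (h3 h1))
    obtain ⟨t'', h6, rfl⟩ := r3 t b hb h3
    refine Or.inr ⟨t'', h6, ?_⟩
    rcases h5 with h5 | h5
    · refine Or.inl ⟨?_, (mem_sepOf hx hy).1 (h4 h1)⟩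
      rw [hl]
      exact Finset.mem_image_of_mem _ h5
    · right
      have h7 := h4 h1
      rw [← h5, mem_sepOf hx hy, Ne, M.lab_eq_iff] at h7
      rw [hl]
      simpa only [know, Finset.image_insert] using h7
  · intro x hx y hy hne
    obtain ⟨ρ, h1, h2⟩ := hsep x hx y hy hne
    obtain ⟨t, rfl⟩ := r4 ρ h1
    exact ⟨t, (mem_sepOf hx hy).1 h2⟩

end Pool.Agent.Lib.MP_157e4e_co.Full
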