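import Mathlib
import Pool.Agent.Lib.MP_157e4e_co.FScale
import Pool.Agent.Lib.MP_157e4e_co.FCover3
import Pool.Agent.Lib.MP_157e4e_co.FCode

set_option autoImplicit false

namespace Pool.Agent.Lib.MP_157e4e_co.Full

open Finset

/-- The regions of `ℛ` induce distinct partitions of `X`, one of them into single points. -/
def Fam {N : ℕ} {Reg β : Type} (f : Reg → Fin N → β) (X : Finset (Fin N)) (ℛ : Finset Reg) :
    Prop :=
  (∀ a ∈ ℛ, ∀ b ∈ ℛ, sepOf X (f a) = sepOf X (f b) → a = b) ∧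
    ∃ ρ ∈ ℛ, ∀ x ∈ X, ∀ y ∈ X, x ≠ y → f ρ x ≠ f ρ y

theorem Fam.card_le {N : ℕ} {Reg β : Type} {f : Reg → Fin N → β} {X : Finset (Fin N)}
    {ℛ : Finset Reg} (h : Fam f X ℛ) : ℛ.card ≤ 2 ^ (X.card * X.card) := by
  rw [← Finset.card_product, ← Finset.card_powerset]
  exact Finset.card_le_card_of_injOn (fun a => sepOf X (f a))
    (fun a _ => Finset.mem_coe.2 (Finset.mem_powerset.2 (sepOf_sub X _)))
    fun a ha b hb hab => h.1 a ha b hb hab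

theorem Fam.congr {N : ℕ} {Reg β γ : Type} {f : Reg → Fin N → β} {g : Reg → Fin N → γ}
    {X : Finset (Fin N)} {ℛ : Finset Reg} (h : Fam f X ℛ)
    (hg : ∀ ρ x y, g ρ x = g ρ y ↔ f ρ x = f ρ y) : Fam g X ℛ := by
  refine ⟨fun a ha b hb hab => h.1 a ha b hb ?_, ?_⟩
  · rwa [sepOf_congr X (hg a), sepOf_congr X (hg b)] at hab
  · obtain ⟨ρ, h1, h2⟩ := h.2
    exact ⟨ρ, h1, fun x hx y hy hne he => h2 x hx y hy hne ((hg ρ x y).1 he)⟩

theorem Fam.promote {N : ℕ} {Reg β I γ : Type} {f : Reg → Fin N → β} {X : Finset (Fin N)}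
    {ℛ : Finset Reg} (h : Fam f X ℛ) (f' : Reg × Option I → Fin N → γ)
    (h0 : ∀ ρ x y, f' (ρ, none) x = f' (ρ, none) y ↔ f ρ x = f ρ y) {ρ : Reg} (i : I)
    (hsub : sepOf X (f' (ρ, some i)) ⊆ sepOf X (f ρ))
    (hn : ¬ Stab (fun ρ => sepOf X (f ρ)) ℛ ρ (sepOf X (f' (ρ, some i)))) :
    ∃ ℛ', Fam f' X ℛ' ∧ ℛ'.card = ℛ.card + 1 := by
  classical
  have key : ∀ a ∈ ℛ, sepOf X (f a) ≠ sepOf X (f' (ρ, some i)) := fun a ha he => by
    refine hn (or_iff_not_imp_left.2 fun hne p hp hpD => ?_)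
    refine (mem_rel.1 hp).2 a ha ?_ (he ▸ hpD)
    rw [he]
    exact Finset.ssubset_iff_subset_ne.2 ⟨hsub, hne⟩
  refine ⟨insert (ρ, some i) (ℛ.image fun a => (a, none)), ⟨?_, ?_⟩, ?_⟩
  · intro a ha b hb hab
    rcases Finset.mem_insert.1 ha with rfl | ha <;> rcases Finset.mem_insert.1 hb with rfl | hb
    · rfl
    · obtain ⟨b', hb', rfl⟩ := Finset.mem_image.1 hb
      rw [sepOf_congr X (h0 b')] at hab
      exact absurd hab.symm (key b' hb')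
    · obtain ⟨a', ha', rfl⟩ := Finset.mem_image.1 ha
      rw [sepOf_congr X (h0 a')] at hab
      exact absurd hab (key a' ha')
    · obtain ⟨a', ha', rfl⟩ := Finset.mem_image.1 ha
      obtain ⟨b', hb', rfl⟩ := Finset.mem_image.1 hb
      rw [sepOf_congr X (h0 a'), sepOf_congr X (h0 b')] at hab
      rw [h.1 a' ha' b' hb' hab]
  · obtain ⟨a, h1, h2⟩ := h.2
    exact ⟨(a, none), Finset.mem_insert_of_mem (Finset.mem_image_of_mem _ h1),
      fun x hx y hy hne he => h2 x hx y hy hne ((h0 a x y).1 he)⟩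
  · rw [Finset.card_insert_of_notMem (by simp), Finset.card_image_of_injective]
    intro a b hab
    exact (Prod.mk.inj hab).1

variable {N : ℕ} {Reg Cell Lv Tm Wt Cn Sy : Type}

theorem dichotomy (M : Sys N Reg Cell Lv Tm Wt Cn Sy) {γ : Type}
    (f' : Reg × Option (Cell ⊕ Tm × Lv) → Fin N → γ)
    (h0 : ∀ ρ x y, f' (ρ, none) x = f' (ρ, none) y ↔ M.f ρ x = M.f ρ y)
    (h1 : ∀ ρ c x y, f' (ρ, some (Sum.inl c)) x = f' (ρ, some (Sum.inl c)) y ↔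
      M.f ρ x c = M.f ρ y c)
    (h2 : ∀ ρ τ l x y, f' (ρ, some (Sum.inr (τ, l))) x = f' (ρ, some (Sum.inr (τ, l))) y ↔
      M.lab (M.hashS τ l ρ) x = M.lab (M.hashS τ l ρ) y)
    {X : Finset (Fin N)} {ℛ : Finset Reg} (h : Fam M.f X ℛ) :
    ((∀ ρ ∈ ℛ, ∀ c, Stab (fun ρ => sepOf X (M.f ρ)) ℛ ρ (sepOf X fun x => M.f ρ x c)) ∧
      ∀ ρ ∈ ℛ, ∀ τ l, Stab (fun ρ => sepOf X (M.f ρ)) ℛ ρ (sepOf X (M.lab (M.hashS τ l ρ)))) ∨
    ∃ ℛ', Fam f' X ℛ' ∧ ℛ'.card = ℛ.card + 1 := by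
  refine or_iff_not_imp_right.2 fun hc => ⟨fun ρ _ c => ?_, fun ρ _ τ l => ?_⟩
  · by_contra hn
    have e := sepOf_congr X (g := fun x => M.f ρ x c) (h1 ρ c)
    refine hc (h.promote f' h0 (ρ := ρ) (Sum.inl c) ?_ (by rwa [e]))
    rw [e]
    exact sepOf_mono X fun x y hxy => congrFun hxy c
  · by_contra hn
    have e := sepOf_congr X (h2 ρ τ l)
    refine hc (h.promote f' h0 (ρ := ρ) (Sum.inr (τ, l)) ?_ (by rwa [e]))
    rw [e]
    refine sepOf_mono X fun x y hxy => (M.lab_eq_iff _ _ _).2 fun i hi => ?_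
    have hi' : i.1 = ρ := hi.1
    simp only [Sys.sym, hi', hxy]

theorem exists_derived [Fintype Cell] [DecidableEq Cell] [Fintype Cn] [Fintype Sy]
    [DecidableEq Wt] (M : Sys N Reg Cell Lv Tm Wt Cn Sy) (γ : Type) [Fintype γ]
    (c0 : Fintype.card (Cell → Cn) ≤ Fintype.card γ) (c1 : Fintype.card Cn ≤ Fintype.card γ)
    (c2 : ∀ τ l, Fintype.card Sy ^ (Fintype.card Cell * (M.Z τ l).card) ≤ Fintype.card γ) :
    ∃ f' : Reg × Option (Cell ⊕ Tm × Lv) → Fin N → γ,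
      (∀ ρ x y, f' (ρ, none) x = f' (ρ, none) y ↔ M.f ρ x = M.f ρ y) ∧
      (∀ ρ c x y, f' (ρ, some (Sum.inl c)) x = f' (ρ, some (Sum.inl c)) y ↔
        M.f ρ x c = M.f ρ y c) ∧
      ∀ ρ τ l x y, f' (ρ, some (Sum.inr (τ, l))) x = f' (ρ, some (Sum.inr (τ, l))) y ↔
        M.lab (M.hashS τ l ρ) x = M.lab (M.hashS τ l ρ) y := by
  choose g0 hg0 using fun ρ => exists_ker_map (M.f ρ) c0
  choose g1 hg1 using fun ρ c => exists_ker_map (fun x => M.f ρ x c) c1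
  choose g2 hg2 using fun ρ τ l => exists_ker_map (γ := γ)
    (fun x (j : Cell × M.Z τ l) => M.sym (ρ, j.1, j.2.1) x) (by
      rw [Fintype.card_fun, Fintype.card_prod, Fintype.card_coe]
      exact c2 τ l)
  refine ⟨fun z => match z with
    | (ρ, none) => g0 ρ
    | (ρ, some (Sum.inl c)) => g1 ρ c
    | (ρ, some (Sum.inr (τ, l))) => g2 ρ τ l, hg0, hg1, fun ρ τ l x y => ?_⟩
  refine (hg2 ρ τ l x y).trans ?_
  rw [M.lab_eq_iff]
  constructor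
  · rintro h ⟨ρ', c, w⟩ ⟨h1, h2⟩
    simp only at h1
    subst h1
    exact congrFun h (c, ⟨w, h2⟩)
  · intro h
    funext j
    exact h _ ⟨rfl, j.2.2⟩

theorem exists_levels (J : Type) [Fintype J] (j0 : J) :
    ∃ (m : ℕ) (dec : Fin (m + 1) → J) (enc : J → Fin (m + 1)),
      dec 0 = j0 ∧ ∀ j, dec (enc j) = j :=
  ⟨Fintype.card J, Fin.cases j0 (Fintype.equivFin J).symm, fun j => (Fintype.equivFin J j).succ, rfl,
    fun j => by simp⟩

theorem exists_seq (Φ : ℕ → ℕ) (g : ℕ) :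
    ∃ G : ℕ → ℕ, Monotone G ∧ G 0 = g ∧ ∀ τ, Φ (G τ) ≤ G (τ + 1) :=
  ⟨fun τ => Nat.rec g (fun _ a => Φ a + a) τ,
    monotone_nat_of_le_succ fun _ => Nat.le_add_left _ _, rfl, fun _ => Nat.le_add_right _ _⟩

end Pool.Agent.Lib.MP_157e4e_co.Full
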