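import Mathlib
import Pool.Agent.Lib.MP_157e4e_co.FStep

set_option autoImplicit false

namespace Pool.Agent.Lib.MP_157e4e_co.Full

open Finset

theorem shatters_mono {n : ℕ} {P Q : Finset (Equiv.Perm (Fin n))} (h : P ⊆ Q) {t : ℕ}
    {X : Finset (Fin n)} (hP : Shatters P t X) : Shatters Q t X :=
  le_trans hP (Finset.card_le_card (Finset.image_subset_image h))

/-- The statement proved by induction on the number `j` of remaining promotions. -/
def PP (k j : ℕ) : Prop :=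
  ∀ (Kr : ℕ) (Reg : Type) [Fintype Reg] [DecidableEq Reg] [Nonempty Reg], ∃ E : ℕ,
    ∀ (L N : ℕ) (f : Reg → Fin N → Fin (2 ^ L)), ∃ P : Finset (Equiv.Perm (Fin N)),
      Kr * P.card ≤ j * L + E ∧ ∀ X : Finset (Fin N), X.card = k → ∀ ℛ, Fam f X ℛ →
        2 ^ (k * k) < ℛ.card + j → Shatters P (2 ^ (k - 1)) X

theorem pp_zero (k : ℕ) : PP k 0 := by
  intro Kr Reg _ _ _
  refine ⟨0, fun L N f => ⟨∅, by simp, fun X hX ℛ h1 h2 => ?_⟩⟩
  have := h1.card_le
  rw [hX] at this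
  omega

theorem size_bound (T Kr R k s r n h b E0 c : ℕ) (h1 : 2 * T * Kr * k * s * R ≤ n)
    (h2 : 2 * T * Kr * k * (s * s) * R * h ≤ r)
    (hc : c ≤ R * (E0 + b * (r * s + n * h * (s * s)) * k)) :
    T * (Kr * c) ≤ T * (Kr * R * E0) + n * r * b := by
  have h3 : 2 * (T * (Kr * c)) ≤ 2 * (T * (Kr * (R * (E0 + b * (r * s + n * h * (s * s)) * k)))) := by
    gcongr
  have h4 : 2 * (T * (Kr * (R * (E0 + b * (r * s + n * h * (s * s)) * k)))) =
      2 * (T * (Kr * R * E0)) + (2 * T * Kr * k * s * R) * (r * b) +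
        (2 * T * Kr * k * (s * s) * R * h) * (n * b) := by ring
  have h5 := Nat.mul_le_mul_right (r * b) h1
  have h6 := Nat.mul_le_mul_right (n * b) h2
  have h7 : n * (r * b) = n * r * b := by ring
  have h8 : r * (n * b) = n * r * b := by ring
  omega

theorem pp_succ (k : ℕ) (hk : 2 ≤ k) (j : ℕ) (ih : PP k j) : PP k (j + 1) := by
  intro Kr Reg _ _ _
  obtain ⟨s, hs⟩ : ∃ s, s = 2 ^ (k * k) := ⟨_, rfl⟩
  obtain ⟨T, hT⟩ : ∃ T, T = s * s + 1 := ⟨_, rfl⟩
  let Rf : ℕ → ℕ := fun g =>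
    Fintype.card Reg ^ s * Fintype.card (Fin (T + 1)) ^ s * (2 * g) ^ s * k ^ (s * k)
  obtain ⟨G, hG1, hG2, hG3⟩ :=
    exists_seq (fun g => 2 * T * Kr * k * (s * s) * Rf g * (2 * (k * k))) (2 * (k * k))
  have hG0 : 0 < G 0 := by rw [hG2]; positivity
  have hGp : ∀ τ, 0 < G τ := fun τ => hG0.trans_le (hG1 (Nat.zero_le τ))
  obtain ⟨n, hn, hn0⟩ : ∃ n, (∀ τ < T, 2 * T * Kr * k * s * Rf (G τ) ≤ n) ∧ 0 < n :=
    ⟨∑ τ ∈ range T, 2 * T * Kr * k * s * Rf (G τ) + 1, fun τ hτ => Nat.le_succ_of_le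
      (Finset.single_le_sum (f := fun τ => 2 * T * Kr * k * s * Rf (G τ))
        (fun _ _ => Nat.zero_le _) (Finset.mem_range.2 hτ)), Nat.succ_pos _⟩
  obtain ⟨m, dec, enc, hd0, hde⟩ := exists_levels (Finset (Reg × Fin n)) ∅
  let G' : Fin (T + 1) → ℕ := fun τ => G τ.val
  let Wt := Dig (Fin (T + 1)) (Fin (m + 1)) G'
  have : Nonempty Wt := ⟨fun i => ⟨0, hGp _⟩⟩
  obtain ⟨W, hW⟩ : ∃ W, W = Fintype.card Wt := ⟨_, rfl⟩
  have hZ : ∀ τ l, (zS G' τ l : Finset Wt).card * G τ.val ≤ W := fun τ l => hW ▸ card_zS G' τ l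
  obtain ⟨r, hr⟩ : ∃ r, r = W / G 0 := ⟨_, rfl⟩
  have hrW : 2 * (k * k * r) ≤ W := by
    rw [hr, ← mul_assoc, ← hG2]
    exact Nat.mul_div_le _ _
  have hZr : ∀ τ l, (zS G' τ l : Finset Wt).card ≤ r := fun τ l => by
    rw [hr, Nat.le_div_iff_mul_le hG0]
    exact (Nat.mul_le_mul_left _ (hG1 (Nat.zero_le _))).trans (hZ τ l)
  have hr0 : 0 < r := by
    refine lt_of_lt_of_le (Finset.card_pos.2 ⟨fun i => ⟨0, hGp _⟩, ?_⟩) (hZr 0 0)
    simp [zS]
  obtain ⟨E', hE'⟩ := ih Kr (Reg × Option (Fin n ⊕ Fin (T + 1) × Fin (m + 1)))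
  obtain ⟨E0, hE0⟩ : ∃ E0, E0 = Fintype.card (Stru s k Reg (Fin n) (Fin (m + 1)) (Fin (T + 1))) :=
    ⟨_, rfl⟩
  refine ⟨E' + (j + 1) * (n * r * (1 + W)) + ∑ τ ∈ range T, Kr * Rf (G τ) * E0, fun L N f => ?_⟩
  obtain ⟨b0, hb0⟩ : ∃ b0, b0 = L / (n * r) := ⟨_, rfl⟩
  obtain ⟨b, hb⟩ : ∃ b, b = b0 + (1 + W) := ⟨_, rfl⟩
  have hnr : 0 < n * r := Nat.mul_pos hn0 hr0
  have hL1 : L ≤ n * r * b := by
    have := Nat.lt_mul_div_succ L hnr
    refine this.le.trans (Nat.mul_le_mul_left _ ?_)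
    rw [← hb0]
    omega
  have hL2 : n * r * b ≤ L + n * r * (1 + W) := by
    rw [hb, mul_add, hb0]
    exact Nat.add_le_add_right (Nat.mul_div_le _ _) _
  let F := GaloisField 2 b
  let _ : Fintype F := Fintype.ofFinite F
  classical
  have hF : Fintype.card F = 2 ^ b := by
    rw [← Nat.card_eq_fintype_card]
    exact GaloisField.card 2 b (by omega)
  obtain ⟨code, hcode⟩ := exists_code F Wt (by
    rw [hF, ← hW]
    exact (Nat.lt_two_pow_self.le).trans (Nat.pow_le_pow_right (by norm_num) (by omega))) r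
  have hCn : Fintype.card (Fin r → F) = 2 ^ (b * r) := by
    rw [Fintype.card_fun, hF, Fintype.card_fin, pow_mul]
  have hCC : Fintype.card (Fin n → Fin r → F) = 2 ^ (n * r * b) := by
    rw [Fintype.card_fun, hCn, Fintype.card_fin, ← pow_mul]
    congr 1
    ring
  choose f0 hf0 using fun ρ => exists_ker_map (γ := Fin n → Fin r → F) (f ρ) (by
    rw [hCC, Fintype.card_fin]
    exact Nat.pow_le_pow_right (by norm_num) hL1)
  let M : Sys N Reg (Fin n) (Fin (m + 1)) (Fin (T + 1)) Wt (Fin r → F) F :=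
    ⟨f0, code, dec, enc, zS G', blkS G'⟩
  have hM : M.Ok G' r := ⟨blkS_sub G', good_zS G' fun τ => hGp _, hcode, by
    have : 1 ≤ k * k := Nat.mul_pos (by omega) (by omega)
    have := Nat.mul_le_mul_right r this
    omega⟩
  obtain ⟨f', k0, k1, k2⟩ := exists_derived M (Fin (2 ^ (n * r * b)))
    (by rw [hCC, Fintype.card_fin]) (by
      rw [hCn, Fintype.card_fin]
      refine Nat.pow_le_pow_right (by norm_num) ?_
      have := Nat.mul_le_mul_right (b * r) hn0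
      calc b * r ≤ n * (b * r) := by omega
        _ = _ := by ring) (fun τ l => by
      rw [hF, Fintype.card_fin, Fintype.card_fin, ← pow_mul]
      refine Nat.pow_le_pow_right (by norm_num) ?_
      calc _ ≤ b * (n * r) := Nat.mul_le_mul_left _ (Nat.mul_le_mul_left _ (hZr τ l))
        _ = _ := by ring)
  obtain ⟨P', hP1, hP2⟩ := hE' (n * r * b) N f'
  let tt : ℕ → Fin (T + 1) := fun τ => Fin.ofNat (T + 1) τ
  have htt : ∀ τ ≤ T, (tt τ).val = τ := fun τ h => Nat.mod_eq_of_lt (Nat.lt_succ_of_le h)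
  have hH : ∀ τ, ∃ H : Finset (Equiv.Perm (Fin N)), τ < T →
      T * (Kr * H.card) ≤ T * (Kr * Rf (G τ) * E0) + n * r * b ∧
      ∀ X : Finset (Fin N), X.card = k → ∀ (R : Fin s → Reg) tm l κ,
        Succ M X (tt (τ + 1)) R tm l κ → (∀ t, G' (tm t) ≤ G τ) → Shatters H (2 ^ (k - 1)) X := by
    intro τ
    by_cases hτ : τ < T
    swap
    · exact ⟨∅, fun h => absurd h hτ⟩
    have hh : ∀ l, (M.Z (tt (τ + 1)) l).card ≤ W / G (τ + 1) := fun l => by
      rw [Nat.le_div_iff_mul_le (hGp _)]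
      have := hZ (tt (τ + 1)) l
      rwa [htt _ hτ] at this
    obtain ⟨H, h1, h2⟩ := cover hM s k (by omega) (tt (τ + 1)) (G τ) (hGp τ) (hW ▸ hrW) _
      (fun R l κ => card_data M (tt (τ + 1)) Fintype.card_pos _ hh R l κ)
      (E0 + b * (r * s + n * (W / G (τ + 1)) * (s * s)) * k) (by
        rw [← hE0, hCn, hF, Fintype.card_fin, ← pow_mul, ← pow_mul, ← pow_mul, ← pow_add,
          ← pow_mul, pow_add]
        refine Nat.mul_lt_mul_of_lt_of_le Nat.lt_two_pow_self (le_of_eq ?_) (by positivity)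
        congr 1
        ring)
    refine ⟨H, fun _ => ⟨size_bound T Kr _ k s r n _ b E0 _ (hn τ hτ) ?_ h1, h2⟩⟩
    rw [hr, Nat.le_div_iff_mul_le hG0, hG2]
    have h3 := Nat.mul_le_mul_right (W / G (τ + 1)) (hG3 τ)
    refine le_trans (le_of_eq ?_) (h3.trans (Nat.mul_div_le _ _))
    ring
  choose H hH using hH
  refine ⟨P' ∪ (range T).biUnion H, ?_, fun X hX ℛ h1 h2 => ?_⟩
  · have h1 : T * (Kr * ((range T).biUnion H).card) ≤
        T * (∑ τ ∈ range T, Kr * Rf (G τ) * E0 + n * r * b) := by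
      calc _ ≤ T * (Kr * ∑ τ ∈ range T, (H τ).card) := by
            gcongr
            exact Finset.card_biUnion_le
        _ = ∑ τ ∈ range T, T * (Kr * (H τ).card) := by rw [Finset.mul_sum, Finset.mul_sum]
        _ ≤ ∑ τ ∈ range T, (T * (Kr * Rf (G τ) * E0) + n * r * b) :=
            Finset.sum_le_sum fun τ hτ => (hH τ (Finset.mem_range.1 hτ)).1
        _ = _ := by
            rw [Finset.sum_add_distrib, Finset.sum_const, Finset.card_range, smul_eq_mul,
              ← Finset.mul_sum, mul_add]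
    have h2 := Nat.le_of_mul_le_mul_left h1 (by omega)
    have h3 := Nat.mul_le_mul_left Kr (Finset.card_union_le P' ((range T).biUnion H))
    have h4 := Nat.mul_le_mul_left (j + 1) hL2
    rw [mul_add] at h3
    rw [mul_add, add_mul] at h4
    omega
  · have h3 : Fam M.f X ℛ := h1.congr hf0
    rcases dichotomy M f' k0 k1 k2 h3 with ⟨h4, h5⟩ | ⟨ℛ', h4, h5⟩
    · have h6 := h1.card_le
      rw [hX, ← hs] at h6
      obtain ⟨τ, hτ, R, tm, l, κ, h7, h8⟩ := scale M X ℛ s T h6 (by omega) tt 0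
        (fun l => Fin.zero_le l) hd0 hde (by omega) h3.2 h4 h5
      refine shatters_mono (fun ρ hρ => Finset.mem_union_right _ (Finset.mem_biUnion.2
        ⟨τ, Finset.mem_range.2 hτ, hρ⟩)) ((hH τ hτ).2 X hX R _ l κ h7 fun t => ?_)
      show G (tt (tm t)).val ≤ G τ
      rw [htt _ ((h8 t).trans hτ.le)]
      exact hG1 (h8 t)
    · exact shatters_mono Finset.subset_union_left (hP2 X hX ℛ' h4 (by omega))

theorem pp_all (k : ℕ) (hk : 2 ≤ k) (j : ℕ) : PP k j := by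
  induction j with
  | zero => exact pp_zero k
  | succ j ih => exact pp_succ k hk j ih

end Pool.Agent.Lib.MP_157e4e_co.Full
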