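import Mathlib
import Pool.Agent.Lib.MP_157e4e_co.FMain

set_option autoImplicit false

namespace Pool.Agent.Lib.MP_157e4e_co.Full

open Finset

theorem main_nat (k : ℕ) (hk : 2 ≤ k) (Kr : ℕ) : ∃ E : ℕ, ∀ n : ℕ,
    ∃ P : Finset (Equiv.Perm (Fin n)), Kr * P.card ≤ 2 ^ (k * k) * Nat.clog 2 n + E ∧
      ∀ X : Finset (Fin n), X.card = k → Shatters P (2 ^ (k - 1)) X := by
  obtain ⟨E, hE⟩ := pp_all k hk (2 ^ (k * k)) Kr Unit
  refine ⟨E, fun n => ?_⟩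
  obtain ⟨P, h1, h2⟩ := hE (Nat.clog 2 n) n
    fun _ x => Fin.castLE (Nat.le_pow_clog (by norm_num) n) x
  refine ⟨P, h1, fun X hX => h2 X hX {()} ⟨fun _ _ _ _ _ => rfl, (), mem_singleton_self _,
    fun x _ y _ hne he => hne (Fin.castLE_injective _ he)⟩ (by simp)⟩

theorem clog_le (n : ℕ) (hn : 2 ≤ n) : (Nat.clog 2 n : ℝ) ≤ 2 * Real.log n + 1 := by
  have h1 : 2 ^ (Nat.clog 2 n).pred < n := Nat.pow_pred_clog_lt_self (by norm_num) (by omega)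
  have h2 : ((2 : ℝ)) ^ (Nat.clog 2 n).pred ≤ n := by exact_mod_cast h1.le
  have h3 := Real.log_le_log (by positivity) h2
  rw [Real.log_pow] at h3
  have h4 := Real.log_two_gt_d9
  have h5 : (Nat.clog 2 n : ℝ) ≤ ((Nat.clog 2 n).pred : ℝ) + 1 := by
    have : Nat.clog 2 n ≤ (Nat.clog 2 n).pred + 1 := by
      rw [Nat.pred_eq_sub_one]
      omega
    exact_mod_cast this
  have h6 : (0 : ℝ) ≤ ((Nat.clog 2 n).pred : ℝ) := by positivity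
  nlinarith

theorem main (k t : ℕ) (hk : 2 ≤ k) (ht : t ≤ 2 ^ (k - 1)) (ε : ℝ) (hε : 0 < ε) :
    ∃ n₀ : ℕ, ∀ n ≥ n₀, ∃ P : Finset (Equiv.Perm (Fin n)), (P.card : ℝ) ≤ ε * Real.log n ∧
      ∀ X : Finset (Fin n), X.card = k → Shatters P t X := by
  obtain ⟨Kr, hKr⟩ := exists_nat_gt ((2 * 2 ^ (k * k) + 1) / ε)
  obtain ⟨E, hE⟩ := main_nat k hk Kr
  have hev : ∀ᶠ n : ℕ in Filter.atTop, (2 : ℝ) ^ (k * k) + E ≤ Real.log n :=
    (Real.tendsto_log_atTop.comp tendsto_natCast_atTop_atTop).eventually_ge_atTop _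
  obtain ⟨n₀, hn₀⟩ := Filter.eventually_atTop.1 (hev.and (Filter.eventually_ge_atTop 2))
  refine ⟨n₀, fun n hn => ?_⟩
  obtain ⟨h1, h2⟩ := hn₀ n hn
  obtain ⟨P, h3, h4⟩ := hE n
  refine ⟨P, ?_, fun X hX => ht.trans (h4 X hX)⟩
  have h5 : (Kr : ℝ) * P.card ≤ 2 ^ (k * k) * Nat.clog 2 n + E := by exact_mod_cast h3
  have h6 := mul_le_mul_of_nonneg_left (clog_le n h2) (show (0 : ℝ) ≤ 2 ^ (k * k) by positivity)
  have h7 : (0 : ℝ) < Kr := lt_trans (by positivity) hKr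
  have h8 : 2 * 2 ^ (k * k) + 1 ≤ Kr * ε := ((div_lt_iff₀ hε).1 hKr).le
  have h9 : 0 ≤ Real.log n := Real.log_natCast_nonneg n
  have h10 := mul_le_mul_of_nonneg_right h8 h9
  refine le_of_mul_le_mul_left ?_ h7
  nlinarith

end Pool.Agent.Lib.MP_157e4e_co.Full
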